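import Mathlib

set_option autoImplicit false

/-!
# Real-number part of the Lu–Wenzel estimates
-/

open Finset

namespace Pool.Agent.H709W

variable {n : Type*} [Fintype n] [DecidableEq n]

lemma split4 (o : n) (f : n → n → ℝ) :
    ∑ i, ∑ j, f i j = f o o + ∑ j ∈ univ.erase o, f o j + ∑ i ∈ univ.erase o, f i o
      + ∑ i ∈ univ.erase o, ∑ j ∈ univ.erase o, f i j := by
  rw [← Finset.add_sum_erase univ (fun i => ∑ j, f i j) (mem_univ o)]
  rw [← Finset.add_sum_erase univ (fun j => f o j) (mem_univ o)]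
  have : ∑ i ∈ univ.erase o, ∑ j, f i j
      = ∑ i ∈ univ.erase o, (f i o + ∑ j ∈ univ.erase o, f i j) := by
    apply sum_congr rfl; intro i _
    rw [← Finset.add_sum_erase univ (fun j => f i j) (mem_univ o)]
  rw [this, sum_add_distrib]; ring

lemma cs_set (T : Finset (n × n)) (s : n → ℝ) (y : n → n → ℝ) (r w : ℝ)
    (h0 : ∀ i j, 0 ≤ y i j) (h1 : ∀ i j, y i j ≤ 1)
    (hr : ∑ q ∈ T, y q.1 q.2 ≤ r) (hw : ∑ q ∈ T, s q.1 ^ 2 * s q.2 ^ 2 ≤ w) :
    ∑ q ∈ T, s q.1 * s q.2 * y q.1 q.2 ≤ √w * √r := by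
  have h := Real.sum_mul_le_sqrt_mul_sqrt T (fun q => s q.1 * s q.2) (fun q => y q.1 q.2)
  refine h.trans ?_
  have e1 : ∑ q ∈ T, (s q.1 * s q.2) ^ 2 ≤ w := by
    refine le_trans (le_of_eq ?_) hw
    apply sum_congr rfl; intro q _; ring
  have e2 : ∑ q ∈ T, (y q.1 q.2) ^ 2 ≤ r := by
    refine le_trans ?_ hr
    apply sum_le_sum; intro q _
    have := h0 q.1 q.2; have := h1 q.1 q.2; nlinarith
  exact mul_le_mul (Real.sqrt_le_sqrt e1) (Real.sqrt_le_sqrt e2) (Real.sqrt_nonneg _)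
    (Real.sqrt_nonneg _)

structure Data (o : n) (s : n → ℝ) (p y z k : n → n → ℝ) (r : ℝ) : Prop where
  s0 : ∀ i, 0 ≤ s i
  ssum : ∑ i, s i ^ 2 = 1
  p0 : ∀ i j, 0 ≤ p i j
  p1 : ∀ i j, p i j ≤ 1
  y0 : ∀ i j, 0 ≤ y i j
  y1 : ∀ i j, y i j ≤ 1
  z0 : ∀ i j, 0 ≤ z i j
  z1 : ∀ i j, z i j ≤ 1
  psum : ∑ i, ∑ j, p i j = r
  ysum : ∑ i, ∑ j, y i j = r
  zsum : ∑ i, ∑ j, z i j = r
  koo : -2 * k o o ≤ 1
  kyz : ∀ i j, -2 * k i j ≤ y i j + z i j

variable {o : n} {s : n → ℝ} {p y z k : n → n → ℝ} {r : ℝ}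

/-- the quantity to be bounded -/
def FF (s : n → ℝ) (p k : n → n → ℝ) : ℝ :=
  ∑ i, ∑ j, ((s i ^ 2 + s j ^ 2) * p i j - 2 * (s i * s j) * k i j)

lemma prod_sum (h : Data o s p y z k r) : ∑ i, ∑ j, s i ^ 2 * s j ^ 2 = 1 := by
  have : ∀ i, ∑ j, s i ^ 2 * s j ^ 2 = s i ^ 2 := by
    intro i; rw [← mul_sum, h.ssum, mul_one]
  simp_rw [this, h.ssum]

/-- case of no large singular value -/
lemma boundA1 (h : Data o s p y z k r) (hs : ∀ i, s i ^ 2 ≤ 1 / 2) :
    FF s p k ≤ r / 2 + 2 + 2 * √r := by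
  have e1 : FF s p k ≤ ∑ i, ∑ j, (p i j / 2 + 2 * (s i ^ 2 * s j ^ 2)
      + s i * s j * y i j + s i * s j * z i j) := by
    apply sum_le_sum; intro i _
    apply sum_le_sum; intro j _
    have h1 := h.p0 i j
    have h2 := h.p1 i j
    have h3 := h.kyz i j
    have h4 := mul_nonneg (h.s0 i) (h.s0 j)
    have h5 := mul_nonneg (sub_nonneg.2 (hs i)) (sub_nonneg.2 (hs j))
    have h6 : 0 ≤ s i ^ 2 * s j ^ 2 := by positivity
    have h7 : (s i ^ 2 + s j ^ 2 - 1 / 2) * p i j ≤ 2 * (s i ^ 2 * s j ^ 2) := by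
      have h8 : s i ^ 2 + s j ^ 2 - 1 / 2 ≤ 2 * (s i ^ 2 * s j ^ 2) := by nlinarith
      calc (s i ^ 2 + s j ^ 2 - 1 / 2) * p i j ≤ (2 * (s i ^ 2 * s j ^ 2)) * p i j :=
            mul_le_mul_of_nonneg_right h8 h1
        _ ≤ (2 * (s i ^ 2 * s j ^ 2)) * 1 := mul_le_mul_of_nonneg_left h2 (by positivity)
        _ = _ := by ring
    have h9 := mul_le_mul_of_nonneg_left h3 h4
    nlinarith
  have hP := prod_sum h
  have c1 := cs_set univ s y r 1 h.y0 h.y1
    (by rw [← h.ysum, Fintype.sum_prod_type]) (by rw [Fintype.sum_prod_type]; exact hP.le)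
  have c2 := cs_set univ s z r 1 h.z0 h.z1
    (by rw [← h.zsum, Fintype.sum_prod_type]) (by rw [Fintype.sum_prod_type]; exact hP.le)
  rw [Fintype.sum_prod_type, Real.sqrt_one, one_mul] at c1 c2
  simp only [sum_add_distrib] at e1
  have e2 : ∑ i, ∑ j, p i j / 2 = r / 2 := by
    simp_rw [← sum_div, h.psum]
  have e3 : ∑ i, ∑ j, 2 * (s i ^ 2 * s j ^ 2) = 2 := by
    simp_rw [← mul_sum]
    have : ∀ i, s i ^ 2 * ∑ j, s j ^ 2 = s i ^ 2 := by intro i; rw [h.ssum, mul_one]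
    simp_rw [this, h.ssum, mul_one]
  rw [e2, e3] at e1
  linarith

lemma bsum (h : Data o s p y z k r) : ∑ i ∈ univ.erase o, s i ^ 2 = 1 - s o ^ 2 := by
  have := Finset.add_sum_erase univ (fun i => s i ^ 2) (mem_univ o)
  rw [h.ssum] at this
  linarith

/-- the main (diagonal) part: exact expansion -/
lemma main_part (h : Data o s p y z k r) :
    ∑ i, ∑ j, (s i ^ 2 + s j ^ 2) * p i j = s o ^ 2 * r + s o ^ 2 * p o o
      + ∑ j ∈ univ.erase o, s j ^ 2 * p o j + ∑ i ∈ univ.erase o, s i ^ 2 * p i o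
      + ∑ i ∈ univ.erase o, ∑ j ∈ univ.erase o, (s i ^ 2 + s j ^ 2 - s o ^ 2) * p i j := by
  have e : ∑ i, ∑ j, (s i ^ 2 + s j ^ 2) * p i j - s o ^ 2 * r
      = ∑ i, ∑ j, (s i ^ 2 + s j ^ 2 - s o ^ 2) * p i j := by
    rw [← h.psum, mul_sum, ← sum_sub_distrib]
    apply sum_congr rfl; intro i _
    rw [mul_sum, ← sum_sub_distrib]
    apply sum_congr rfl; intro j _; ring
  rw [split4 o (fun i j => (s i ^ 2 + s j ^ 2 - s o ^ 2) * p i j)] at e
  have e1 : ∑ j ∈ univ.erase o, (s o ^ 2 + s j ^ 2 - s o ^ 2) * p o j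
      = ∑ j ∈ univ.erase o, s j ^ 2 * p o j := by
    apply sum_congr rfl; intro j _; ring
  have e2 : ∑ i ∈ univ.erase o, (s i ^ 2 + s o ^ 2 - s o ^ 2) * p i o
      = ∑ i ∈ univ.erase o, s i ^ 2 * p i o := by
    apply sum_congr rfl; intro i _; ring
  rw [e1, e2] at e
  linarith

lemma row_le (h : Data o s p y z k r) (q : n → ℝ) (hq0 : ∀ i, 0 ≤ q i) (hq : ∀ i, q i ≤ 1) :
    ∑ i ∈ univ.erase o, s i ^ 2 * q i ≤ 1 - s o ^ 2 := by
  rw [← bsum h]
  apply sum_le_sum; intro i _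
  have := hq i; have := sq_nonneg (s i); nlinarith [hq0 i]

/-- case of a large singular value, crude bound -/
lemma boundA2 (h : Data o s p y z k r) (b : ℝ) (hb : b = 1 - s o ^ 2) (hb2 : b ≤ 1 / 2) :
    FF s p k ≤ (1 - b) * r + 2 + 2 * b ^ 2 + 2 * √(b * (2 - b) * r) := by
  have hso : s o ^ 2 = 1 - b := by linarith
  have hai : ∀ i ∈ univ.erase o, s i ^ 2 ≤ b := by
    intro i hi
    rw [hb, ← bsum h]
    exact Finset.single_le_sum (f := fun i => s i ^ 2) (fun _ _ => by positivity) hi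
  have hb0 : 0 ≤ b := by
    rw [hb, ← bsum h]; exact sum_nonneg fun _ _ => by positivity
  have hr0 : 0 ≤ r := by
    rw [← h.psum]; exact sum_nonneg fun i _ => sum_nonneg fun j _ => h.p0 i j
  -- main part
  have hm := main_part h
  have m1 := row_le h (fun j => p o j) (fun j => h.p0 o j) (fun j => h.p1 o j)
  have m2 := row_le h (fun i => p i o) (fun i => h.p0 i o) (fun i => h.p1 i o)
  have m3 : ∑ i ∈ univ.erase o, ∑ j ∈ univ.erase o, (s i ^ 2 + s j ^ 2 - s o ^ 2) * p i j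
      ≤ 2 * b ^ 2 := by
    have : ∑ i ∈ univ.erase o, ∑ j ∈ univ.erase o, (s i ^ 2 + s j ^ 2 - s o ^ 2) * p i j
        ≤ ∑ i ∈ univ.erase o, ∑ j ∈ univ.erase o, 2 * (s i ^ 2 * s j ^ 2) := by
      apply sum_le_sum; intro i hi
      apply sum_le_sum; intro j hj
      have h1 := h.p0 i j
      have h2 := h.p1 i j
      have h5 := mul_nonneg (sub_nonneg.2 ((hai i hi).trans hb2))
        (sub_nonneg.2 ((hai j hj).trans hb2))
      have h8 : s i ^ 2 + s j ^ 2 - s o ^ 2 ≤ 2 * (s i ^ 2 * s j ^ 2) := by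
        rw [hso]; nlinarith
      calc (s i ^ 2 + s j ^ 2 - s o ^ 2) * p i j ≤ (2 * (s i ^ 2 * s j ^ 2)) * p i j :=
            mul_le_mul_of_nonneg_right h8 h1
        _ ≤ (2 * (s i ^ 2 * s j ^ 2)) * 1 := mul_le_mul_of_nonneg_left h2 (by positivity)
        _ = _ := by ring
    refine this.trans (le_of_eq ?_)
    simp_rw [← mul_sum]
    rw [bsum h, ← hb, ← sum_mul, bsum h, ← hb]; ring
  -- cross part
  set T : Finset (n × n) := univ.erase (o, o) with hT
  have hsplit : ∀ f : n → n → ℝ, ∑ i, ∑ j, f i j = f o o + ∑ q ∈ T, f q.1 q.2 := by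
    intro f
    rw [← Fintype.sum_prod_type (f := fun q : n × n => f q.1 q.2), hT,
      ← Finset.add_sum_erase univ (fun q : n × n => f q.1 q.2) (mem_univ (o, o))]
  have hw : ∑ q ∈ T, s q.1 ^ 2 * s q.2 ^ 2 ≤ b * (2 - b) := by
    have h1 := hsplit (fun i j => s i ^ 2 * s j ^ 2)
    rw [prod_sum h, hso] at h1
    nlinarith
  have hy := hsplit y
  have hz := hsplit z
  have c1 := cs_set T s y r _ h.y0 h.y1 (by rw [h.ysum] at hy; have := h.y0 o o; linarith) hw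
  have c2 := cs_set T s z r _ h.z0 h.z1 (by rw [h.zsum] at hz; have := h.z0 o o; linarith) hw
  have hk : -∑ i, ∑ j, 2 * (s i * s j) * k i j ≤ (1 - b)
      + ∑ q ∈ T, s q.1 * s q.2 * y q.1 q.2 + ∑ q ∈ T, s q.1 * s q.2 * z q.1 q.2 := by
    rw [hsplit (fun i j => 2 * (s i * s j) * k i j), ← hso, neg_add, add_assoc,
      ← sum_add_distrib, ← sum_neg_distrib]
    apply add_le_add
    · have := h.koo
      have h2 := sq_nonneg (s o)
      nlinarith
    · apply sum_le_sum; intro q _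
      have h3 := h.kyz q.1 q.2
      have h4 := mul_nonneg (h.s0 q.1) (h.s0 q.2)
      have h9 := mul_le_mul_of_nonneg_left h3 h4
      nlinarith
  have hF : FF s p k = ∑ i, ∑ j, (s i ^ 2 + s j ^ 2) * p i j
      - ∑ i, ∑ j, 2 * (s i * s j) * k i j := by
    unfold FF
    simp_rw [sum_sub_distrib]
  have hsq : √(b * (2 - b) * r) = √(b * (2 - b)) * √r :=
    Real.sqrt_mul (by nlinarith) r
  have hpoo := mul_le_mul_of_nonneg_left (h.p1 o o) (sq_nonneg (s o))
  rw [hF, hm, hsq]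
  rw [← hb] at m1 m2
  rw [hso] at hpoo ⊢
  rw [hso] at m3
  linarith

/-- exact bound when no singular value is close to one -/
theorem boundA' (h : Data o s p y z k r) (hmax : ∀ i, s i ≤ s o) (R : ℝ) (hrR : r ≤ R)
    (hR : 16 ≤ R) (ho : s o ^ 2 ≤ 1 - 8 / R) : FF s p k ≤ R + 2 := by
  have hR0 : 0 < R := by linarith
  have hr0 : 0 ≤ r := by
    rw [← h.psum]; exact sum_nonneg fun i _ => sum_nonneg fun j _ => h.p0 i j
  rcases le_or_gt (s o ^ 2) (1 / 2) with hc | hc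
  · have h1 := boundA1 h (fun i => by
      have := hmax i; have := h.s0 i
      nlinarith)
    have h2 : √R ≤ R / 4 := by
      rw [Real.sqrt_le_left (by linarith)]
      nlinarith
    have h3 : √r ≤ √R := Real.sqrt_le_sqrt hrR
    linarith
  · set b := 1 - s o ^ 2 with hb
    have hb2 : b ≤ 1 / 2 := by linarith
    have h1 := boundA2 h b hb hb2
    have hbr : 8 ≤ b * R := by
      have : 8 / R ≤ b := by linarith
      rw [div_le_iff₀ hR0] at this
      exact this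
    have hb0 : 0 ≤ b := by
      by_contra hcon
      push Not at hcon
      nlinarith
    have h2 : √(b * (2 - b) * R) ≤ (b * R - 2 * b ^ 2) / 2 := by
      rw [Real.sqrt_le_left (by nlinarith)]
      have e : ((b * R - 2 * b ^ 2) / 2) ^ 2 - b * (2 - b) * R
          = (b * R) * (b * R - 4 * b ^ 2 + 4 * b - 8) / 4 + b ^ 4 := by ring
      have : 0 ≤ (b * R) * (b * R - 4 * b ^ 2 + 4 * b - 8) / 4 + b ^ 4 := by
        have h3 : 0 ≤ b * R - 4 * b ^ 2 + 4 * b - 8 := by nlinarith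
        positivity
      linarith
    have h3 : √(b * (2 - b) * r) ≤ √(b * (2 - b) * R) := by
      apply Real.sqrt_le_sqrt
      apply mul_le_mul_of_nonneg_left hrR
      nlinarith
    have h4 : (1 - b) * r ≤ (1 - b) * R := mul_le_mul_of_nonneg_left hrR (by linarith)
    linarith

/-- exact bound when no singular value is close to one -/
theorem boundA (h : Data o s p y z k r) (hmax : ∀ i, s i ≤ s o) (hr : 16 ≤ r)
    (ho : s o ^ 2 ≤ 1 - 8 / r) : FF s p k ≤ r + 2 :=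
  boundA' h hmax r le_rfl hr ho

end Pool.Agent.H709W
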