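import Mathlib
import Pool.Agent.H709W.Real

set_option autoImplicit false

/-!
# Real-number part, near rank one
-/

open Finset

namespace Pool.Agent.H709W

variable {n : Type*} [Fintype n] [DecidableEq n]
variable {o : n} {s : n → ℝ} {p y z k : n → n → ℝ} {r : ℝ}

structure DataB (o : n) (s : n → ℝ) (p k : n → n → ℝ) (g : ℝ) (w w' f e : n → ℝ)
    (f' e' : n → n → ℝ) : Prop where
  g0 : 0 ≤ g
  g1 : g ≤ 1
  hoo : p o o - 2 * k o o ≤ 2 * (1 - g)
  f0 : ∀ j, 0 ≤ f j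
  e0 : ∀ j, 0 ≤ e j
  f0' : ∀ i j, 0 ≤ f' i j
  e0' : ∀ i j, 0 ≤ e' i j
  w0 : ∀ j, 0 ≤ w j
  w0' : ∀ j, 0 ≤ w' j
  wsum : ∑ j ∈ univ.erase o, w j ^ 2 ≤ 1 - g
  wsum' : ∑ j ∈ univ.erase o, w' j ^ 2 ≤ 1 - g
  fsum : ∑ j ∈ univ.erase o, f j ≤ ∑ i ∈ univ.erase o, ∑ j ∈ univ.erase o, p i j
  esum : ∑ j ∈ univ.erase o, e j ≤ ∑ i ∈ univ.erase o, ∑ j ∈ univ.erase o, p i j
  fsum' : ∑ i ∈ univ.erase o, ∑ j ∈ univ.erase o, f' i j
    ≤ ∑ i ∈ univ.erase o, ∑ j ∈ univ.erase o, p i j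
  esum' : ∑ i ∈ univ.erase o, ∑ j ∈ univ.erase o, e' i j
    ≤ ∑ i ∈ univ.erase o, ∑ j ∈ univ.erase o, p i j
  row : ∀ j ∈ univ.erase o, -k o j ≤ √g * √(p o j) + √(f j)
  col : ∀ i ∈ univ.erase o, -k i o ≤ √g * √(p i o) + √(e i)
  tt : ∀ l ∈ univ.erase o, ∀ m ∈ univ.erase o,
    -k l m ≤ w m * w' l + w m * √(f' l m) + w' l * √(e' l m) + (f' l m + e' l m) / 2

omit [Fintype n] [DecidableEq n] in
lemma cs_sqrt {ι : Type*} (T : Finset ι) (u v : ι → ℝ) (A B : ℝ) (hv : ∀ i ∈ T, 0 ≤ v i)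
    (hA : ∑ i ∈ T, u i ^ 2 ≤ A) (hB : ∑ i ∈ T, v i ≤ B) :
    ∑ i ∈ T, u i * √(v i) ≤ √A * √B := by
  have h := Real.sum_mul_le_sqrt_mul_sqrt T u (fun i => √(v i))
  refine h.trans ?_
  have e : ∑ i ∈ T, √(v i) ^ 2 = ∑ i ∈ T, v i :=
    sum_congr rfl fun i hi => Real.sq_sqrt (hv i hi)
  rw [e]
  exact mul_le_mul (Real.sqrt_le_sqrt hA) (Real.sqrt_le_sqrt hB) (Real.sqrt_nonneg _)
    (Real.sqrt_nonneg _)

variable {g : ℝ} {w w' f e : n → ℝ} {f' e' : n → n → ℝ}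

lemma row_part (T : Finset n) (b g D P : ℝ) (k p f : n → ℝ) (s : n → ℝ) (hs : ∀ i, 0 ≤ s i)
    (hp : ∀ i, 0 ≤ p i) (hf : ∀ i, 0 ≤ f i) (hb : ∑ i ∈ T, s i ^ 2 ≤ b)
    (hP : ∑ i ∈ T, p i ≤ P) (hD : ∑ i ∈ T, f i ≤ D)
    (h : ∀ j ∈ T, -k j ≤ √g * √(p j) + √(f j)) :
    ∑ j ∈ T, s j * (-k j) ≤ √g * (√b * √P) + √b * √D := by
  have h1 : ∑ j ∈ T, s j * (-k j) ≤ √g * ∑ j ∈ T, s j * √(p j) + ∑ j ∈ T, s j * √(f j) := by
    rw [mul_sum, ← sum_add_distrib]
    apply sum_le_sum; intro j hj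
    have := mul_le_mul_of_nonneg_left (h j hj) (hs j)
    linarith
  have h2 := cs_sqrt T s p b P (fun i _ => hp i) hb hP
  have h3 := cs_sqrt T s f b D (fun i _ => hf i) hb hD
  have h4 := mul_le_mul_of_nonneg_left h2 (Real.sqrt_nonneg g)
  linarith

lemma tt_part (hB : DataB o s p k g w w' f e f' e') (hs : ∀ i, 0 ≤ s i) (b D : ℝ)
    (hb0 : 0 ≤ b) (hb : ∑ i ∈ univ.erase o, s i ^ 2 = b)
    (hD : ∑ i ∈ univ.erase o, ∑ j ∈ univ.erase o, p i j = D) :
    ∑ l ∈ univ.erase o, ∑ m ∈ univ.erase o, (s l * s m) * (-k l m)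
      ≤ b + 2 * (b * √D) + b * D := by
  set T := univ.erase o with hT
  have hw1 : ∀ i ∈ T, w i ^ 2 ≤ 1 := by
    intro i hi
    have := Finset.single_le_sum (f := fun i => w i ^ 2) (fun _ _ => by positivity) hi
    have h2 := hB.wsum; have := hB.g0
    linarith
  have hw1' : ∀ i ∈ T, w' i ^ 2 ≤ 1 := by
    intro i hi
    have := Finset.single_le_sum (f := fun i => w' i ^ 2) (fun _ _ => by positivity) hi
    have h2 := hB.wsum'; have := hB.g0
    linarith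
  have hsb : ∀ i ∈ T, s i ^ 2 ≤ b := by
    intro i hi; rw [← hb]
    exact Finset.single_le_sum (f := fun i => s i ^ 2) (fun _ _ => by positivity) hi
  -- first term
  have t1 : ∑ l ∈ T, ∑ m ∈ T, (s l * w' l) * (s m * w m) ≤ b := by
    have e1 : ∑ l ∈ T, ∑ m ∈ T, (s l * w' l) * (s m * w m)
        = (∑ l ∈ T, s l * w' l) * (∑ m ∈ T, s m * w m) := by
      rw [sum_mul]; simp_rw [mul_sum]
    have h1 : ∑ l ∈ T, s l * w' l ≤ √b := by
      have := Real.sum_mul_le_sqrt_mul_sqrt T s w'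
      have h2 : √(∑ i ∈ T, w' i ^ 2) ≤ 1 := by
        refine Real.sqrt_le_iff.2 ⟨by norm_num, ?_⟩
        have := hB.wsum'; have := hB.g0; linarith
      rw [hb] at this
      have h3 := mul_le_mul_of_nonneg_left h2 (Real.sqrt_nonneg b)
      linarith
    have h2 : ∑ m ∈ T, s m * w m ≤ √b := by
      have := Real.sum_mul_le_sqrt_mul_sqrt T s w
      have h2 : √(∑ i ∈ T, w i ^ 2) ≤ 1 := by
        refine Real.sqrt_le_iff.2 ⟨by norm_num, ?_⟩
        have := hB.wsum; have := hB.g0; linarith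
      rw [hb] at this
      have h3 := mul_le_mul_of_nonneg_left h2 (Real.sqrt_nonneg b)
      linarith
    rw [e1]
    calc _ ≤ √b * √b := mul_le_mul h1 h2
          (sum_nonneg fun i _ => mul_nonneg (hs i) (hB.w0 i)) (Real.sqrt_nonneg _)
      _ = b := Real.mul_self_sqrt hb0
  -- second and third terms
  have t2 : ∑ q ∈ T ×ˢ T, (s q.1 * s q.2 * w q.2) * √(f' q.1 q.2) ≤ b * √D := by
    have := cs_sqrt (T ×ˢ T) (fun q => s q.1 * s q.2 * w q.2) (fun q => f' q.1 q.2) (b ^ 2) D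
      (fun q _ => hB.f0' _ _) ?_ ?_
    · rwa [Real.sqrt_sq hb0] at this
    · calc ∑ q ∈ T ×ˢ T, (s q.1 * s q.2 * w q.2) ^ 2 ≤ ∑ q ∈ T ×ˢ T, s q.1 ^ 2 * s q.2 ^ 2 := by
            apply sum_le_sum; intro q hq
            have h1 := hw1 q.2 (Finset.mem_product.1 hq).2
            have h2 : 0 ≤ s q.1 ^ 2 * s q.2 ^ 2 := by positivity
            have h3 := mul_le_mul_of_nonneg_left h1 h2
            calc (s q.1 * s q.2 * w q.2) ^ 2 = s q.1 ^ 2 * s q.2 ^ 2 * w q.2 ^ 2 := by ring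
              _ ≤ _ := by linarith
        _ = b ^ 2 := by
            rw [Finset.sum_product]
            simp_rw [← mul_sum, hb, ← sum_mul, hb]; ring
    · rw [Finset.sum_product, ← hD]; exact hB.fsum'
  have t3 : ∑ q ∈ T ×ˢ T, (s q.1 * s q.2 * w' q.1) * √(e' q.1 q.2) ≤ b * √D := by
    have := cs_sqrt (T ×ˢ T) (fun q => s q.1 * s q.2 * w' q.1) (fun q => e' q.1 q.2) (b ^ 2) D
      (fun q _ => hB.e0' _ _) ?_ ?_
    · rwa [Real.sqrt_sq hb0] at this
    · calc ∑ q ∈ T ×ˢ T, (s q.1 * s q.2 * w' q.1) ^ 2 ≤ ∑ q ∈ T ×ˢ T, s q.1 ^ 2 * s q.2 ^ 2 := by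
            apply sum_le_sum; intro q hq
            have h1 := hw1' q.1 (Finset.mem_product.1 hq).1
            have h2 : 0 ≤ s q.1 ^ 2 * s q.2 ^ 2 := by positivity
            have h3 := mul_le_mul_of_nonneg_left h1 h2
            calc (s q.1 * s q.2 * w' q.1) ^ 2 = s q.1 ^ 2 * s q.2 ^ 2 * w' q.1 ^ 2 := by ring
              _ ≤ _ := by linarith
        _ = b ^ 2 := by
            rw [Finset.sum_product]
            simp_rw [← mul_sum, hb, ← sum_mul, hb]; ring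
    · rw [Finset.sum_product, ← hD]; exact hB.esum'
  rw [Finset.sum_product] at t2 t3
  -- fourth term
  have t4 : ∑ l ∈ T, ∑ m ∈ T, (s l * s m) * ((f' l m + e' l m) / 2) ≤ b * D := by
    have h1 : ∑ l ∈ T, ∑ m ∈ T, (s l * s m) * ((f' l m + e' l m) / 2)
        ≤ ∑ l ∈ T, ∑ m ∈ T, b * ((f' l m + e' l m) / 2) := by
      apply sum_le_sum; intro l hl
      apply sum_le_sum; intro m hm
      apply mul_le_mul_of_nonneg_right
      · have := hsb l hl; have := hsb m hm; nlinarith [sq_nonneg (s l - s m)]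
      · have := hB.f0' l m; have := hB.e0' l m; linarith
    have h2 : ∑ l ∈ T, ∑ m ∈ T, b * ((f' l m + e' l m) / 2)
        = b * ((∑ l ∈ T, ∑ m ∈ T, f' l m + ∑ l ∈ T, ∑ m ∈ T, e' l m) / 2) := by
      simp_rw [← mul_sum, ← sum_div, sum_add_distrib]
    have h3 := hB.fsum'
    have h4 := hB.esum'
    rw [hD] at h3 h4
    rw [h2] at h1
    have h5 : (∑ l ∈ T, ∑ m ∈ T, f' l m + ∑ l ∈ T, ∑ m ∈ T, e' l m) / 2 ≤ D := by linarith
    have h6 := mul_le_mul_of_nonneg_left h5 hb0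
    linarith
  have key : ∑ l ∈ T, ∑ m ∈ T, (s l * s m) * (-k l m)
      ≤ ∑ l ∈ T, ∑ m ∈ T, ((s l * w' l) * (s m * w m) + (s l * s m * w m) * √(f' l m)
        + (s l * s m * w' l) * √(e' l m) + (s l * s m) * ((f' l m + e' l m) / 2)) := by
    apply sum_le_sum; intro l hl
    apply sum_le_sum; intro m hm
    have h1 := mul_le_mul_of_nonneg_left (hB.tt l hl m hm) (mul_nonneg (hs l) (hs m))
    refine h1.trans (le_of_eq ?_)
    ring
  simp only [sum_add_distrib] at key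
  linarith

/-- scalar optimisation over the outside mass -/
lemma scalar1 (β d : ℝ) (hβ : 0 ≤ β) (hd : 0 ≤ d) (hb : β ^ 2 ≤ 1 / 20) :
    (4 * β + 4 * β ^ 2) * d - (1 - 5 * β ^ 2) * d ^ 2 ≤ 9 * β ^ 2 := by
  have h1 : β ≤ 9 / 40 := by nlinarith
  have h2 : (4 * β + 4 * β ^ 2) * d ≤ (49 / 10 * β) * d := by
    apply mul_le_mul_of_nonneg_right _ hd
    nlinarith
  have h3 : (3 / 4) * d ^ 2 ≤ (1 - 5 * β ^ 2) * d ^ 2 := by
    apply mul_le_mul_of_nonneg_right _ (sq_nonneg d)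
    linarith
  nlinarith [sq_nonneg (d - 49 / 15 * β)]

/-- the bound near rank one -/
theorem boundB0 (h : Data o s p y z k r) (hB : DataB o s p k g w w' f e f' e')
    (b : ℝ) (hb : b = 1 - s o ^ 2) (hb2 : b ≤ 1 / 20) :
    FF s p k ≤ r + 2 + 11 * b - (√(b * r) - √2 * √g * s o) ^ 2 := by
  have hso : s o ^ 2 = 1 - b := by linarith
  set T := univ.erase o with hT
  set D := ∑ i ∈ T, ∑ j ∈ T, p i j with hDdef
  have hbs : ∑ i ∈ T, s i ^ 2 = b := by rw [hb, ← bsum h]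
  have hb0 : 0 ≤ b := by rw [← hbs]; exact sum_nonneg fun _ _ => by positivity
  have hD0 : 0 ≤ D := sum_nonneg fun i _ => sum_nonneg fun j _ => h.p0 i j
  have hr0 : 0 ≤ r := by
    rw [← h.psum]; exact sum_nonneg fun i _ => sum_nonneg fun j _ => h.p0 i j
  have hai : ∀ i ∈ T, s i ^ 2 ≤ b := by
    intro i hi
    rw [← hbs]
    exact Finset.single_le_sum (f := fun i => s i ^ 2) (fun _ _ => by positivity) hi
  have hm := main_part h
  have m1 := row_le h (fun j => p o j) (fun j => h.p0 o j) (fun j => h.p1 o j)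
  have m2 := row_le h (fun i => p i o) (fun i => h.p0 i o) (fun i => h.p1 i o)
  rw [← hb] at m1 m2
  have m3 : ∑ i ∈ T, ∑ j ∈ T, (s i ^ 2 + s j ^ 2 - s o ^ 2) * p i j ≤ (3 * b - 1) * D := by
    rw [hDdef, mul_sum]
    apply sum_le_sum; intro i hi
    rw [mul_sum]
    apply sum_le_sum; intro j hj
    apply mul_le_mul_of_nonneg_right _ (h.p0 i j)
    have := hai i hi; have := hai j hj; rw [hso]; linarith
  -- cross terms
  have c1 := row_part T b g D (∑ j ∈ T, p o j) (fun j => k o j) (fun j => p o j) f s h.s0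
    (fun j => h.p0 o j) hB.f0 hbs.le le_rfl hB.fsum hB.row
  have c2 := row_part T b g D (∑ i ∈ T, p i o) (fun i => k i o) (fun i => p i o) e s h.s0
    (fun i => h.p0 i o) hB.e0 hbs.le le_rfl hB.esum hB.col
  have c3 := tt_part hB h.s0 b D hb0 hbs hDdef.symm
  have hps := split4 o p
  rw [h.psum, ← hT, ← hDdef] at hps
  set P1 := ∑ j ∈ T, p o j with hP1
  set P2 := ∑ i ∈ T, p i o with hP2
  have hP1n : 0 ≤ P1 := sum_nonneg fun j _ => h.p0 o j
  have hP2n : 0 ≤ P2 := sum_nonneg fun j _ => h.p0 j o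
  have hPr : P1 + P2 ≤ r := by have := h.p0 o o; linarith
  have hsq : √P1 + √P2 ≤ √2 * √r := by
    rw [← Real.sqrt_mul (by norm_num)]
    apply Real.le_sqrt_of_sq_le
    have e1 := Real.sq_sqrt hP1n
    have e2 := Real.sq_sqrt hP2n
    nlinarith [sq_nonneg (√P1 - √P2)]
  -- the cross sum
  have hk : -∑ i, ∑ j, 2 * (s i * s j) * k i j
      = -2 * s o ^ 2 * k o o + 2 * s o * ∑ j ∈ T, s j * (-k o j)
        + 2 * s o * ∑ i ∈ T, s i * (-k i o)
        + 2 * ∑ l ∈ T, ∑ m ∈ T, (s l * s m) * (-k l m) := by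
    rw [split4 o (fun i j => 2 * (s i * s j) * k i j), ← hT]
    have a1 : ∑ j ∈ T, 2 * (s o * s j) * k o j = -(2 * s o * ∑ j ∈ T, s j * (-k o j)) := by
      rw [mul_sum, ← sum_neg_distrib]; apply sum_congr rfl; intro j _; ring
    have a2 : ∑ i ∈ T, 2 * (s i * s o) * k i o = -(2 * s o * ∑ i ∈ T, s i * (-k i o)) := by
      rw [mul_sum, ← sum_neg_distrib]; apply sum_congr rfl; intro j _; ring
    have a3 : ∑ l ∈ T, ∑ m ∈ T, 2 * (s l * s m) * k l m
        = -(2 * ∑ l ∈ T, ∑ m ∈ T, (s l * s m) * (-k l m)) := by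
      rw [mul_sum, ← sum_neg_distrib]; apply sum_congr rfl; intro l _
      rw [mul_sum, ← sum_neg_distrib]; apply sum_congr rfl; intro m _; ring
    rw [a1, a2, a3]; ring
  have hF : FF s p k = ∑ i, ∑ j, (s i ^ 2 + s j ^ 2) * p i j
      - ∑ i, ∑ j, 2 * (s i * s j) * k i j := by
    unfold FF
    simp_rw [sum_sub_distrib]
  have hso0 := h.s0 o
  have hso1 : s o ≤ 1 := by nlinarith
  have hg := Real.sqrt_nonneg g
  have hsb := Real.sqrt_nonneg b
  have hsD := Real.sqrt_nonneg D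
  have eb : √b ^ 2 = b := Real.sq_sqrt hb0
  have eD : √D ^ 2 = D := Real.sq_sqrt hD0
  have er : √r ^ 2 = r := Real.sq_sqrt hr0
  have eg : √g ^ 2 = g := Real.sq_sqrt hB.g0
  have e2 : √2 ^ 2 = 2 := Real.sq_sqrt (by norm_num)
  have ebr : √(b * r) = √b * √r := Real.sqrt_mul hb0 r
  have sc := scalar1 (√b) (√D) hsb hsD (by rw [eb]; exact hb2)
  rw [eb, eD] at sc
  -- combine rows
  have k1 : 2 * s o * ∑ j ∈ T, s j * (-k o j) + 2 * s o * ∑ i ∈ T, s i * (-k i o)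
      ≤ 2 * s o * (√g * √b * (√2 * √r)) + 4 * (√b * √D) := by
    have h1 : ∑ j ∈ T, s j * (-k o j) + ∑ i ∈ T, s i * (-k i o)
        ≤ √g * √b * (√2 * √r) + 2 * (√b * √D) := by
      have h2 := mul_le_mul_of_nonneg_left hsq (mul_nonneg hg hsb)
      linarith
    have h3 := mul_le_mul_of_nonneg_left h1 (by linarith : 0 ≤ 2 * s o)
    have h4 : 2 * s o * (2 * (√b * √D)) ≤ 4 * (√b * √D) := by
      have := mul_nonneg hsb hsD
      nlinarith
    linarith
  have k2 : s o ^ 2 * p o o + -2 * s o ^ 2 * k o o ≤ (1 - b) * (2 * (1 - g)) := by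
    rw [← hso]
    have := mul_le_mul_of_nonneg_left hB.hoo (sq_nonneg (s o))
    linarith
  have hfin : FF s p k ≤ (1 - b) * r + (1 - b) * (2 * (1 - g)) + 2 * b + (3 * b - 1) * D
      + (2 * s o * (√g * √b * (√2 * √r)) + 4 * (√b * √D)) + 2 * (b + 2 * (b * √D) + b * D) := by
    rw [hF, hm, sub_eq_add_neg, hk]
    have : s o ^ 2 * r = (1 - b) * r := by rw [hso]
    linarith
  refine hfin.trans ?_
  rw [ebr]
  have esq : (√b * √r - √2 * √g * s o) ^ 2
      = b * r - 2 * s o * (√g * √b * (√2 * √r)) + 2 * g * (1 - b) := by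
    have : (√b * √r - √2 * √g * s o) ^ 2 = √b ^ 2 * √r ^ 2 - 2 * s o * (√g * √b * (√2 * √r))
        + √2 ^ 2 * √g ^ 2 * s o ^ 2 := by ring
    rw [this, eb, er, e2, eg, hso]
  rw [esq]
  linarith


/-- the bound with error `O(1/r)` -/
theorem boundB (h : Data o s p y z k r) (hB : DataB o s p k g w w' f e f' e')
    (hmax : ∀ i, s i ≤ s o) (hr : 160 ≤ r) : FF s p k ≤ r + 2 + 24 / r := by
  have hr0 : 0 < r := by linarith
  have h24 : 0 ≤ 24 / r := by positivity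
  set b := 1 - s o ^ 2 with hb
  rcases le_or_gt b (1 / 20) with hc | hc
  · have h0 := boundB0 h hB b hb hc
    have hb0 : 0 ≤ b := by
      rw [hb, ← bsum h]; exact sum_nonneg fun _ _ => by positivity
    have hso2 : s o ^ 2 ≤ 1 := by linarith
    have hy2 : (√2 * √g * s o) ^ 2 ≤ 2 := by
      have e2 : √2 ^ 2 = 2 := Real.sq_sqrt (by norm_num)
      have eg : √g ^ 2 = g := Real.sq_sqrt hB.g0
      have : (√2 * √g * s o) ^ 2 = √2 ^ 2 * √g ^ 2 * s o ^ 2 := by ring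
      rw [this, e2, eg]
      have := mul_le_mul hB.g1 hso2 (sq_nonneg _) zero_le_one
      linarith
    have hx2 : √(b * r) ^ 2 = b * r := Real.sq_sqrt (by positivity)
    set x := √(b * r) with hx
    set v := √2 * √g * s o with hv
    set c := 11 / r with hcdef
    have hc0 : 0 < c := by positivity
    have hcr : c * r = 11 := by rw [hcdef]; field_simp
    have hc1 : c ≤ 11 / 160 := by
      rw [hcdef, div_le_div_iff₀ hr0 (by norm_num)]; linarith
    have e1 : 11 * b = c * x ^ 2 := by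
      rw [hx2]; calc 11 * b = (c * r) * b := by rw [hcr]
        _ = _ := by ring
    have e2 : 24 / r = 24 / 11 * c := by rw [hcdef]; ring
    have key : c * x ^ 2 - (x - v) ^ 2 ≤ 24 / 11 * c := by
      have h1 : 0 ≤ (1 - c) * (24 / 11 * c - (c * x ^ 2 - (x - v) ^ 2)) := by
        have : (1 - c) * (24 / 11 * c - (c * x ^ 2 - (x - v) ^ 2))
            = ((1 - c) * x - v) ^ 2 + c * (24 / 11 * (1 - c) - v ^ 2) := by ring
        rw [this]
        have h2 : 0 ≤ 24 / 11 * (1 - c) - v ^ 2 := by linarith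
        positivity
      have h3 : 0 < 1 - c := by linarith
      have h4 := nonneg_of_mul_nonneg_right h1 h3
      linarith
    rw [e2]
    linarith
  · have h1 := boundA h hmax (by linarith) (by
      have : 8 / r ≤ 1 / 20 := by
        rw [div_le_div_iff₀ hr0 (by norm_num)]; linarith
      linarith)
    linarith

end Pool.Agent.H709W
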