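import Mathlib
import Pool.Agent.H629LW.Final

set_option autoImplicit false

/-!
# Singular value decomposition (copied from `Pool/Agent/Helper296/Bourin.lean`, piece of helper687)
-/

open Matrix

namespace Pool.Agent.H709W

theorem svd {n : ℕ} (X : Matrix (Fin n) (Fin n) ℂ) :
    ∃ U ∈ Matrix.unitaryGroup (Fin n) ℂ, ∃ V ∈ Matrix.unitaryGroup (Fin n) ℂ, ∃ s : Fin n → ℝ,
      Antitone s ∧ (∀ i, 0 ≤ s i) ∧ X = U * Matrix.diagonal (fun i => (s i : ℂ)) * V := by
  classical
  let E := EuclideanSpace ℂ (Fin n)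
  let A : E →ₗ[ℂ] E := Matrix.toEuclideanLin X
  have hn : Module.finrank ℂ E = n := by simp [E]
  have hT := A.isSymmetric_adjoint_comp_self
  let b : OrthonormalBasis (Fin n) ℂ E := hT.eigenvectorBasis hn
  let lam : Fin n → ℝ := hT.eigenvalues hn
  have hTb : ∀ i, LinearMap.adjoint A (A (b i)) = (lam i : ℂ) • b i := fun i =>
    hT.apply_eigenvectorBasis hn i
  have hlam : Antitone lam := hT.eigenvalues_antitone hn
  have hin : ∀ i j, inner ℂ (A (b i)) (A (b j)) = (lam j : ℂ) * inner ℂ (b i) (b j) := by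
    intro i j
    rw [← LinearMap.adjoint_inner_right, hTb, inner_smul_right]
  let f : Fin n → E := fun i => A (b i)
  have horth : Pairwise fun i j => inner ℂ (f i) (f j) = 0 := by
    intro i j hij
    show inner ℂ (A (b i)) (A (b j)) = 0
    rw [hin, b.orthonormal.inner_eq_zero hij, mul_zero]
  have hnorm : ∀ i, ‖f i‖ ^ 2 = lam i := by
    intro i
    have h1 : (inner ℂ (f i) (f i) : ℂ) = (lam i : ℂ) := by
      show inner ℂ (A (b i)) (A (b i)) = _
      rw [hin]
      have : (inner ℂ (b i) (b i) : ℂ) = 1 := by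
        rw [inner_self_eq_norm_sq_to_K, b.orthonormal.1 i]
        simp
      rw [this, mul_one]
    rw [inner_self_eq_norm_sq_to_K] at h1
    have h2 : ((‖f i‖ ^ 2 : ℝ) : ℂ) = (lam i : ℂ) := by
      rw [← h1]
      push_cast
      rfl
    exact Complex.ofReal_injective h2
  let c : OrthonormalBasis (Fin n) ℂ E :=
    InnerProductSpace.gramSchmidtOrthonormalBasis (by rw [hn, Fintype.card_fin]) f
  have hc : ∀ i, f i = ((‖f i‖ : ℝ) : ℂ) • c i := by
    intro i
    by_cases h0 : f i = 0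
    · rw [h0, norm_zero]
      simp
    · have h1 : c i = ((‖f i‖⁻¹ : ℝ) : ℂ) • f i := by
        have := InnerProductSpace.gramSchmidtOrthonormalBasis_apply_of_orthogonal
          (𝕜 := ℂ) (by rw [hn, Fintype.card_fin]) horth h0
        simpa using this
      rw [h1, smul_smul]
      have h2 : ‖f i‖ ≠ 0 := norm_ne_zero_iff.2 h0
      have h3 : ((‖f i‖ : ℝ) : ℂ) * ((‖f i‖⁻¹ : ℝ) : ℂ) = 1 := by
        rw [← Complex.ofReal_mul, mul_inv_cancel₀ h2, Complex.ofReal_one]
      rw [h3, one_smul]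
  let e : OrthonormalBasis (Fin n) ℂ E := EuclideanSpace.basisFun (Fin n) ℂ
  let W : Matrix (Fin n) (Fin n) ℂ := e.toBasis.toMatrix b
  let U : Matrix (Fin n) (Fin n) ℂ := e.toBasis.toMatrix c
  have hW : W ∈ Matrix.unitaryGroup (Fin n) ℂ := e.toMatrix_orthonormalBasis_mem_unitary b
  have hU : U ∈ Matrix.unitaryGroup (Fin n) ℂ := e.toMatrix_orthonormalBasis_mem_unitary c
  have hWa : ∀ i j, W i j = b j i := by
    intro i j
    simp only [W, e, Module.Basis.toMatrix_apply]
    rfl
  have hUa : ∀ i j, U i j = c j i := by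
    intro i j
    simp only [U, e, Module.Basis.toMatrix_apply]
    rfl
  have hXW : X * W = U * Matrix.diagonal (fun i => ((‖f i‖ : ℝ) : ℂ)) := by
    ext i j
    rw [Matrix.mul_diagonal, hUa]
    have h1 : (X * W) i j = (f j) i := by
      show _ = (Matrix.toEuclideanLin X (b j)) i
      rw [Matrix.mul_apply, Matrix.toLpLin_apply]
      simp only [Matrix.mulVec, dotProduct, hWa]
    rw [h1]
    conv_lhs => rw [hc j]
    show ((‖f j‖ : ℝ) : ℂ) * (c j) i = (c j) i * ((‖f j‖ : ℝ) : ℂ)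
    ring
  refine ⟨U, hU, star W, ?_, fun i => ‖f i‖, ?_, fun i => norm_nonneg _, ?_⟩
  · exact Unitary.star_mem hW
  · intro i j hij
    have h1 := hlam hij
    rw [← hnorm, ← hnorm] at h1
    exact le_of_sq_le_sq h1 (norm_nonneg _)
  · rw [← hXW, mul_assoc, Matrix.mem_unitaryGroup_iff.1 hW, mul_one]


end Pool.Agent.H709W
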