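import Mathlib
import Pool.Agent.H709W.RealB
import Pool.Agent.H709W.Svd

set_option autoImplicit false

/-!
# Matrix part of the Lu–Wenzel estimates
-/

open Finset Matrix Pool.H629LW

namespace Pool.Agent.H709W

variable {n : Type*} [Fintype n] [DecidableEq n] {κ : Type*} [Fintype κ]

/-- pairwise orthogonal families with norms at most one -/
structure SubON (Y : κ → Matrix n n ℂ) : Prop where
  orth : ∀ a b, a ≠ b → ((Y a)ᴴ * Y b).trace = 0
  norm : ∀ a, N2 (Y a) ≤ 1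

lemma SubON.rot {Y : κ → Matrix n n ℂ} (hY : SubON Y) (U V : Matrix n n ℂ) (hU : U * Uᴴ = 1)
    (hV : V * Vᴴ = 1) : SubON (fun a => Uᴴ * Y a * V) := by
  refine ⟨?_, fun a => by rw [N2_unitary U V hU hV]; exact hY.norm a⟩
  intro a b hab
  have e : (Uᴴ * Y a * V)ᴴ * (Uᴴ * Y b * V) = Vᴴ * ((Y a)ᴴ * Y b * V) := by
    simp only [Matrix.conjTranspose_mul, Matrix.conjTranspose_conjTranspose]
    calc Vᴴ * ((Y a)ᴴ * U) * (Uᴴ * Y b * V) = Vᴴ * ((Y a)ᴴ * (U * Uᴴ) * Y b * V) := by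
          simp only [Matrix.mul_assoc]
      _ = _ := by rw [hU, Matrix.mul_one]
  rw [e, Matrix.trace_mul_comm, Matrix.mul_assoc, hV, Matrix.mul_one]
  exact hY.orth a b hab

lemma N2_smul (c : ℂ) (A : Matrix n n ℂ) : N2 (c • A) = ‖c‖ ^ 2 * N2 A := by
  unfold N2
  simp only [Matrix.smul_apply, smul_eq_mul, norm_mul, mul_pow, ← Finset.mul_sum]

/-- Bessel's inequality for a general functional -/
lemma bessel_gen {Y : κ → Matrix n n ℂ} (hY : SubON Y) (Z : Matrix n n ℂ) :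
    ∑ a, ‖(Zᴴ * Y a).trace‖ ^ 2 ≤ N2 Z := by
  classical
  -- `t a = tr((Y a)ᴴ Z)`
  set t : κ → ℂ := fun a => ((Y a)ᴴ * Z).trace with ht
  have htn : ∀ a, ‖(Zᴴ * Y a).trace‖ = ‖t a‖ := by
    intro a
    have : (Zᴴ * Y a).trace = star (t a) := by
      rw [ht, ← Matrix.trace_conjTranspose, Matrix.conjTranspose_mul,
        Matrix.conjTranspose_conjTranspose]
    rw [this, norm_star]
  simp_rw [htn]
  set V : Matrix n n ℂ := ∑ a, t a • Y a with hV
  have hVN : N2 V = ∑ a, ‖t a‖ ^ 2 * N2 (Y a) := by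
    rw [N2_eq, hV, Matrix.conjTranspose_sum, Matrix.sum_mul, Matrix.trace_sum, Complex.re_sum]
    apply Finset.sum_congr rfl
    intro a _
    rw [Matrix.mul_sum, Matrix.trace_sum, Finset.sum_eq_single a]
    · rw [Matrix.conjTranspose_smul, Matrix.smul_mul, Matrix.mul_smul, Matrix.trace_smul,
        Matrix.trace_smul, smul_eq_mul, smul_eq_mul, ← mul_assoc, Complex.star_def,
        mul_comm ((starRingEnd ℂ) (t a)) (t a), Complex.mul_conj, Complex.normSq_eq_norm_sq, N2_eq,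
        Complex.re_ofReal_mul]
    · intro b _ hb
      rw [Matrix.conjTranspose_smul, Matrix.smul_mul, Matrix.mul_smul, Matrix.trace_smul,
        Matrix.trace_smul, hY.orth a b (Ne.symm hb)]
      simp
    · intro h; exact absurd (Finset.mem_univ a) h
  have hin : ((Zᴴ * V).trace).re = ∑ a, ‖t a‖ ^ 2 := by
    rw [hV, Matrix.mul_sum, Matrix.trace_sum, Complex.re_sum]
    apply Finset.sum_congr rfl
    intro a _
    rw [Matrix.mul_smul, Matrix.trace_smul, smul_eq_mul]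
    have : (Zᴴ * Y a).trace = star (t a) := by
      rw [ht, ← Matrix.trace_conjTranspose, Matrix.conjTranspose_mul,
        Matrix.conjTranspose_conjTranspose]
    rw [this, Complex.star_def, Complex.mul_conj, Complex.normSq_eq_norm_sq, Complex.ofReal_re]
  have h0 := N2_nonneg (Z - V)
  rw [N2_sub, hVN, hin] at h0
  have h1 : ∑ a, ‖t a‖ ^ 2 * N2 (Y a) ≤ ∑ a, ‖t a‖ ^ 2 := by
    apply Finset.sum_le_sum; intro a _
    have := hY.norm a
    have h2 : 0 ≤ ‖t a‖ ^ 2 := by positivity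
    nlinarith
  linarith

lemma row_eq (M : Matrix n n ℂ) (i : n) :
    (M * Mᴴ) i i = ((∑ j, ‖M i j‖ ^ 2 : ℝ) : ℂ) := by
  rw [Matrix.mul_apply, Complex.ofReal_sum]
  apply Finset.sum_congr rfl; intro j _
  rw [Matrix.conjTranspose_apply, Complex.star_def, Complex.mul_conj, Complex.normSq_eq_norm_sq]

lemma rowN (M V : Matrix n n ℂ) (hV : V * Vᴴ = 1) (i : n) :
    ∑ j, ‖(M * V) i j‖ ^ 2 = ∑ j, ‖M i j‖ ^ 2 := by
  have h1 := row_eq (M * V) i
  have h2 := row_eq M i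
  have : (M * V) * (M * V)ᴴ = M * Mᴴ := by
    rw [Matrix.conjTranspose_mul]
    calc M * V * (Vᴴ * Mᴴ) = M * (V * Vᴴ) * Mᴴ := by simp only [Matrix.mul_assoc]
      _ = _ := by rw [hV, Matrix.mul_one]
  rw [this, h2] at h1
  exact_mod_cast h1.symm

lemma colN (M V : Matrix n n ℂ) (hV : V * Vᴴ = 1) (j : n) :
    ∑ i, ‖(Vᴴ * M) i j‖ ^ 2 = ∑ i, ‖M i j‖ ^ 2 := by
  have h := rowN Mᴴ V hV j
  have e : ∀ i, ‖(Vᴴ * M) i j‖ = ‖(Mᴴ * V) j i‖ := by
    intro i
    have : (Mᴴ * V) = (Vᴴ * M)ᴴ := by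
      rw [Matrix.conjTranspose_mul, Matrix.conjTranspose_conjTranspose]
    rw [this, Matrix.conjTranspose_apply, norm_star]
  simp_rw [e]
  rw [h]
  simp

/-- the rank one matrix `x y*` -/
def R1 (x y : n → ℂ) : Matrix n n ℂ := Matrix.of fun i j => x i * star (y j)

lemma tr_R1 (x y : n → ℂ) (Y : Matrix n n ℂ) :
    ((R1 x y)ᴴ * Y).trace = ∑ i, ∑ j, star (x i) * Y i j * y j := by
  rw [trace_conjTranspose_mul]
  apply Finset.sum_congr rfl; intro i _
  apply Finset.sum_congr rfl; intro j _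
  simp only [R1, Matrix.of_apply, star_mul, star_star]
  ring

lemma tr_R1_R1 (x y x' y' : n → ℂ) :
    ((R1 x y)ᴴ * R1 x' y').trace = (∑ i, star (x i) * x' i) * (∑ j, star (y' j) * y j) := by
  rw [tr_R1, Finset.sum_mul_sum]
  apply Finset.sum_congr rfl; intro i _
  apply Finset.sum_congr rfl; intro j _
  simp only [R1, Matrix.of_apply]
  ring

lemma N2_R1 (x y : n → ℂ) : N2 (R1 x y) = (∑ i, ‖x i‖ ^ 2) * (∑ j, ‖y j‖ ^ 2) := by
  unfold N2
  rw [Finset.sum_mul_sum]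
  simp [R1, mul_pow]

end Pool.Agent.H709W
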