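import Mathlib
import Pool.Agent.H709W.Mat

set_option autoImplicit false

/-!
# Pointwise inequalities and the functionals at the top singular pair
-/

open Finset Matrix Pool.H629LW

namespace Pool.Agent.H709W

/-- `-2 Re(x ȳ) ≤ |x - y|²/2` -/
lemma pt1 (x y : ℂ) : -2 * (x * star y).re ≤ ‖x - y‖ ^ 2 / 2 := by
  rw [← Complex.normSq_eq_norm_sq, Complex.normSq_apply]
  simp only [Complex.star_def, Complex.mul_re, Complex.conj_re, Complex.conj_im, Complex.sub_re,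
    Complex.sub_im]
  nlinarith [sq_nonneg (x.re + y.re), sq_nonneg (x.im + y.im)]

/-- `-2 Re(x ȳ) ≤ |x|² + |y|²` -/
lemma pt2 (x y : ℂ) : -2 * (x * star y).re ≤ ‖x‖ ^ 2 + ‖y‖ ^ 2 := by
  rw [← Complex.normSq_eq_norm_sq, Complex.normSq_apply, ← Complex.normSq_eq_norm_sq,
    Complex.normSq_apply]
  simp only [Complex.star_def, Complex.mul_re, Complex.conj_re, Complex.conj_im]
  nlinarith [sq_nonneg (x.re + y.re), sq_nonneg (x.im + y.im)]

/-- `-Re(x ȳ) ≤ |x||y|` -/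
lemma pt3 (x y : ℂ) : -(x * star y).re ≤ ‖x‖ * ‖y‖ := by
  have h := Complex.abs_re_le_norm (x * star y)
  rw [norm_mul, norm_star] at h
  have := neg_abs_le (x * star y).re
  linarith [neg_le_abs (x * star y).re]

/-- key pointwise estimate at the top singular pair -/
lemma pt4 (x p q w : ℂ) (hw : ‖w‖ ^ 2 ≤ 1) :
    (2 - ‖w‖ ^ 2) * (‖x‖ ^ 2 - 2 * (p * star q).re)
      ≤ 2 * ‖x - (w / 2) * (p + q)‖ ^ 2 + (2 - ‖w‖ ^ 2) / 2 * ‖p - q‖ ^ 2 := by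
  set G := x - (w / 2) * (p + q) with hG
  have hx : ‖x‖ ≤ ‖G‖ + ‖w‖ / 2 * ‖p + q‖ := by
    have : x = G + (w / 2) * (p + q) := by rw [hG]; ring
    calc ‖x‖ = ‖G + (w / 2) * (p + q)‖ := by rw [← this]
      _ ≤ ‖G‖ + ‖(w / 2) * (p + q)‖ := norm_add_le _ _
      _ = _ := by rw [norm_mul, norm_div]; simp
  have hid : -2 * (p * star q).re = -(1 / 2) * ‖p + q‖ ^ 2 + (1 / 2) * ‖p - q‖ ^ 2 := by
    rw [← Complex.normSq_eq_norm_sq, Complex.normSq_apply, ← Complex.normSq_eq_norm_sq,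
      Complex.normSq_apply]
    simp only [Complex.star_def, Complex.mul_re, Complex.conj_re, Complex.conj_im, Complex.sub_re,
      Complex.sub_im, Complex.add_re, Complex.add_im]
    ring
  have hx2 : ‖x‖ ^ 2 ≤ (‖G‖ + ‖w‖ / 2 * ‖p + q‖) ^ 2 :=
    pow_le_pow_left₀ (norm_nonneg _) hx 2
  set A := ‖G‖
  set S := ‖p + q‖
  set g := ‖w‖
  have h2 : 0 ≤ 2 - g ^ 2 := by linarith
  have h3 := mul_le_mul_of_nonneg_left hx2 h2
  have h4 : (2 - g ^ 2) * (A + g / 2 * S) ^ 2 ≤ 2 * A ^ 2 + (2 - g ^ 2) / 2 * S ^ 2 := by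
    have : 2 * A ^ 2 + (2 - g ^ 2) / 2 * S ^ 2 - (2 - g ^ 2) * (A + g / 2 * S) ^ 2
        = (g * A - (2 - g ^ 2) / 2 * S) ^ 2 := by ring
    nlinarith [sq_nonneg (g * A - (2 - g ^ 2) / 2 * S)]
  have h5 : ‖x‖ ^ 2 - 2 * (p * star q).re
      = ‖x‖ ^ 2 + (-(1 / 2) * S ^ 2 + (1 / 2) * ‖p - q‖ ^ 2) := by
    rw [← hid]; ring
  rw [h5]
  linarith

variable {n : Type*} [Fintype n] [DecidableEq n] {κ : Type*} [Fintype κ]

noncomputable def pp (W : Matrix n n ℂ) (Y : κ → Matrix n n ℂ) (i j : n) : ℝ :=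
  ∑ a, ‖(Y a * W) i j‖ ^ 2
noncomputable def yy (Y : κ → Matrix n n ℂ) (i j : n) : ℝ := ∑ a, ‖Y a i j‖ ^ 2
noncomputable def zz (W : Matrix n n ℂ) (Y : κ → Matrix n n ℂ) (i j : n) : ℝ :=
  ∑ a, ‖(Wᴴ * Y a * W) i j‖ ^ 2
noncomputable def kk (W : Matrix n n ℂ) (Y : κ → Matrix n n ℂ) (i j : n) : ℝ :=
  ∑ a, (Y a i j * star ((Wᴴ * Y a * W) i j)).re

/-- the unit vector -/
def ee (o : n) : n → ℂ := fun i => if i = o then 1 else 0

lemma ee_sum (o : n) (u : n → ℂ) : ∑ i, star (ee o i) * u i = u o := by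
  simp [ee]

lemma ee_sum' (o : n) (u : n → ℂ) : ∑ i, star (u i) * ee o i = star (u o) := by
  simp [ee]

lemma ee_norm (o : n) : ∑ i, ‖ee o i‖ ^ 2 = 1 := by
  have : ∀ i, ‖ee o i‖ ^ 2 = if i = o then 1 else 0 := by
    intro i; unfold ee; split_ifs <;> simp
  simp_rw [this]; simp

lemma col_norm {W : Matrix n n ℂ} (hW' : Wᴴ * W = 1) (o : n) : ∑ i, ‖W i o‖ ^ 2 = 1 := by
  have h : ((∑ i, ‖W i o‖ ^ 2 : ℝ) : ℂ) = 1 := by
    have h1 : (Wᴴ * W) o o = 1 := by rw [hW']; simp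
    rw [← h1, Matrix.mul_apply, Complex.ofReal_sum]
    apply Finset.sum_congr rfl; intro i _
    rw [Matrix.conjTranspose_apply, Complex.star_def, mul_comm, Complex.mul_conj,
      Complex.normSq_eq_norm_sq]
  exact_mod_cast h

lemma row_norm {W : Matrix n n ℂ} (hW : W * Wᴴ = 1) (o : n) : ∑ j, ‖W o j‖ ^ 2 = 1 := by
  have h1 := row_eq W o
  rw [hW] at h1
  simp only [Matrix.one_apply_eq] at h1
  exact_mod_cast h1.symm

lemma fx (W : Matrix n n ℂ) (Y : Matrix n n ℂ) (o : n) :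
    ((R1 (ee o) (fun i => W i o))ᴴ * Y).trace = (Y * W) o o := by
  rw [tr_R1, Finset.sum_comm]
  rw [Matrix.mul_apply]
  apply Finset.sum_congr rfl; intro j _
  rw [← Finset.sum_mul, ee_sum]

lemma fp (Y : Matrix n n ℂ) (o : n) : ((R1 (ee o) (ee o))ᴴ * Y).trace = Y o o := by
  rw [tr_R1, Finset.sum_comm]
  have : ∀ j, ∑ i, star (ee o i) * Y i j * ee o j = Y o j * ee o j := by
    intro j; rw [← Finset.sum_mul, ee_sum]
  simp_rw [this]
  simp [ee]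

lemma fq (W : Matrix n n ℂ) (Y : Matrix n n ℂ) (o : n) :
    ((R1 (fun i => W i o) (fun i => W i o))ᴴ * Y).trace = (Wᴴ * Y * W) o o := by
  rw [tr_R1, Finset.sum_comm, Matrix.mul_apply]
  apply Finset.sum_congr rfl; intro j _
  rw [← Finset.sum_mul, Matrix.mul_apply]
  rfl

lemma boundH {W : Matrix n n ℂ} (hW' : Wᴴ * W = 1) {Y : κ → Matrix n n ℂ} (hY : SubON Y)
    (o : n) : ∑ a, ‖Y a o o - (Wᴴ * Y a * W) o o‖ ^ 2 ≤ 2 - 2 * ‖W o o‖ ^ 2 := by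
  have h := bessel_gen hY (R1 (ee o) (ee o) - R1 (fun i => W i o) (fun i => W i o))
  have e1 : ∀ a, ((R1 (ee o) (ee o) - R1 (fun i => W i o) (fun i => W i o))ᴴ * Y a).trace
      = Y a o o - (Wᴴ * Y a * W) o o := by
    intro a
    rw [Matrix.conjTranspose_sub, Matrix.sub_mul, Matrix.trace_sub, fp, fq]
  simp_rw [e1] at h
  refine h.trans (le_of_eq ?_)
  rw [N2_sub, N2_R1, N2_R1, ee_norm, col_norm hW', tr_R1_R1, ee_sum,
    ee_sum' o (fun i => W i o), Complex.star_def, Complex.mul_conj, Complex.normSq_eq_norm_sq,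
    Complex.ofReal_re]
  ring

lemma boundG {W : Matrix n n ℂ} (hW' : Wᴴ * W = 1) {Y : κ → Matrix n n ℂ} (hY : SubON Y)
    (o : n) : ∑ a, ‖(Y a * W) o o - (W o o / 2) * (Y a o o + (Wᴴ * Y a * W) o o)‖ ^ 2
      ≤ (1 - ‖W o o‖ ^ 2) * (2 - ‖W o o‖ ^ 2) / 2 := by
  set u : n → ℂ := fun i => W i o with hu
  set S := R1 (ee o) (ee o) + R1 u u with hS
  have h := bessel_gen hY (R1 (ee o) u - (star (W o o / 2)) • S)
  have e1 : ∀ a, ((R1 (ee o) u - (star (W o o / 2)) • S)ᴴ * Y a).trace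
      = (Y a * W) o o - (W o o / 2) * (Y a o o + (Wᴴ * Y a * W) o o) := by
    intro a
    rw [Matrix.conjTranspose_sub, Matrix.sub_mul, Matrix.trace_sub, fx,
      Matrix.conjTranspose_smul, Matrix.smul_mul, Matrix.trace_smul, star_star, hS,
      Matrix.conjTranspose_add, Matrix.add_mul, Matrix.trace_add, fp, fq, smul_eq_mul]
  simp_rw [e1] at h
  refine h.trans (le_of_eq ?_)
  have hun : ∑ i, ‖u i‖ ^ 2 = 1 := col_norm hW' o
  have hunC : ∑ i, star (u i) * u i = 1 := by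
    have : ∀ i, star (u i) * u i = ((‖u i‖ ^ 2 : ℝ) : ℂ) := by
      intro i
      rw [Complex.star_def, mul_comm, Complex.mul_conj, Complex.normSq_eq_norm_sq]
    simp_rw [this]
    rw [← Complex.ofReal_sum, hun, Complex.ofReal_one]
  have hee : ∑ i, star (ee o i) * ee o i = 1 := by
    rw [ee_sum]; simp [ee]
  have hSN : N2 S = 2 + 2 * ‖W o o‖ ^ 2 := by
    rw [hS, N2_add, N2_R1, N2_R1, ee_norm, hun, tr_R1_R1, ee_sum, ee_sum',
      Complex.star_def, Complex.mul_conj, Complex.normSq_eq_norm_sq, Complex.ofReal_re, hu]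
    ring
  have htr : ((R1 (ee o) u)ᴴ * S).trace = 2 * W o o := by
    rw [hS, Matrix.mul_add, Matrix.trace_add, tr_R1_R1, tr_R1_R1, hee, hunC, ee_sum]
    simp only [hu]
    ring
  rw [N2_sub, N2_smul, hSN, N2_R1, ee_norm, hun, Matrix.mul_smul, Matrix.trace_smul, htr,
    smul_eq_mul]
  have e2 : (star (W o o / 2) * (2 * W o o)) = ((‖W o o‖ ^ 2 : ℝ) : ℂ) := by
    have : star (W o o / 2) * (2 * W o o) = W o o * star (W o o) := by
      rw [star_div₀, star_ofNat]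
      ring
    rw [this, Complex.star_def, Complex.mul_conj, Complex.normSq_eq_norm_sq]
  have e3 : ‖star (W o o / 2)‖ ^ 2 = ‖W o o‖ ^ 2 / 4 := by
    rw [norm_star, norm_div]
    simp
    ring
  rw [e2, e3, Complex.ofReal_re]
  ring

lemma hoo {W : Matrix n n ℂ} (hW' : Wᴴ * W = 1) {Y : κ → Matrix n n ℂ} (hY : SubON Y)
    (o : n) (hw : ‖W o o‖ ^ 2 ≤ 1) :
    pp W Y o o - 2 * kk W Y o o ≤ 2 * (1 - ‖W o o‖ ^ 2) := by
  have h1 : (2 - ‖W o o‖ ^ 2) * (pp W Y o o - 2 * kk W Y o o)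
      ≤ 2 * ∑ a, ‖(Y a * W) o o - (W o o / 2) * (Y a o o + (Wᴴ * Y a * W) o o)‖ ^ 2
        + (2 - ‖W o o‖ ^ 2) / 2 * ∑ a, ‖Y a o o - (Wᴴ * Y a * W) o o‖ ^ 2 := by
    unfold pp kk
    rw [mul_sum univ _ (2 : ℝ), ← sum_sub_distrib, mul_sum, mul_sum, mul_sum, ← sum_add_distrib]
    apply sum_le_sum; intro a _
    exact pt4 _ _ _ _ hw
  have h2 := boundG hW' hY o
  have h3 := boundH hW' hY o
  have h4 : 0 < 2 - ‖W o o‖ ^ 2 := by linarith
  have h5 := mul_le_mul_of_nonneg_left h3 (by linarith : 0 ≤ (2 - ‖W o o‖ ^ 2) / 2)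
  have h6 : (2 - ‖W o o‖ ^ 2) * (pp W Y o o - 2 * kk W Y o o)
      ≤ (2 - ‖W o o‖ ^ 2) * (2 * (1 - ‖W o o‖ ^ 2)) := by linarith
  exact le_of_mul_le_mul_left h6 h4

lemma koo {W : Matrix n n ℂ} (hW' : Wᴴ * W = 1) {Y : κ → Matrix n n ℂ} (hY : SubON Y)
    (o : n) : -2 * kk W Y o o ≤ 1 := by
  have h1 : -2 * kk W Y o o ≤ (∑ a, ‖Y a o o - (Wᴴ * Y a * W) o o‖ ^ 2) / 2 := by
    unfold kk
    rw [mul_sum, sum_div]
    exact sum_le_sum fun a _ => pt1 _ _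
  have h3 := boundH hW' hY o
  have := sq_nonneg ‖W o o‖
  linarith

end Pool.Agent.H709W
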