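import Mathlib
import Pool.Agent.H709W.Pts

set_option autoImplicit false

/-!
# Cross terms, and the bound for `X = W diag(s)`
-/

open Finset Matrix Pool.H629LW

namespace Pool.Agent.H709W

variable {n : Type*} [Fintype n] [DecidableEq n] {κ : Type*} [Fintype κ]

noncomputable def Ee (W : Matrix n n ℂ) (Y : Matrix n n ℂ) (o : n) : Matrix n n ℂ :=
  (Matrix.of fun i j => if j = o then 0 else (Y * W) i j) * Wᴴ
noncomputable def Ff (W : Matrix n n ℂ) (Y : Matrix n n ℂ) (o : n) : Matrix n n ℂ :=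
  Wᴴ * (Matrix.of fun i j => if i = o then 0 else (Y * W) i j)

lemma split_sum (o : n) (P Q : n → ℂ) :
    ∑ j, P j * Q j = P o * Q o + ∑ j, (if j = o then 0 else P j) * Q j := by
  rw [← Finset.add_sum_erase univ _ (mem_univ o),
    ← Finset.add_sum_erase univ (fun j => (if j = o then 0 else P j) * Q j) (mem_univ o)]
  simp only [if_true, zero_mul, zero_add]
  congr 1
  apply sum_congr rfl; intro j hj
  rw [if_neg (Finset.ne_of_mem_erase hj)]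

lemma Y_eq {W : Matrix n n ℂ} (hW : W * Wᴴ = 1) (Y : Matrix n n ℂ) (o l m : n) :
    Y l m = (Y * W) l o * star (W m o) + Ee W Y o l m := by
  have h1 : Y = (Y * W) * Wᴴ := by rw [Matrix.mul_assoc, hW, Matrix.mul_one]
  have h2 : Y l m = ∑ j, (Y * W) l j * star (W m j) := by
    conv_lhs => rw [h1]
    rw [Matrix.mul_apply]
    rfl
  rw [h2, split_sum o, Ee, Matrix.mul_apply]
  rfl

lemma A_eq (W : Matrix n n ℂ) (Y : Matrix n n ℂ) (o l m : n) :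
    (Wᴴ * Y * W) l m = star (W o l) * (Y * W) o m + Ff W Y o l m := by
  have h2 : (Wᴴ * Y * W) l m = ∑ i, (Y * W) i m * star (W i l) := by
    rw [Matrix.mul_assoc, Matrix.mul_apply]
    apply sum_congr rfl; intro i _
    rw [mul_comm]
    rfl
  rw [h2, split_sum o, Ff, Matrix.mul_apply, mul_comm]
  congr 1
  apply sum_congr rfl; intro i _
  rw [mul_comm]
  rfl

lemma E_row {W : Matrix n n ℂ} (hW' : Wᴴ * W = 1) (Y : Matrix n n ℂ) (o i : n) :
    ∑ j, ‖Ee W Y o i j‖ ^ 2 = ∑ j ∈ univ.erase o, ‖(Y * W) i j‖ ^ 2 := by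
  unfold Ee
  rw [rowN _ Wᴴ (by rw [Matrix.conjTranspose_conjTranspose]; exact hW')]
  rw [← Finset.add_sum_erase univ _ (mem_univ o)]
  simp only [Matrix.of_apply, if_true, norm_zero]
  rw [zero_pow (by norm_num), zero_add]
  apply sum_congr rfl; intro j hj
  rw [if_neg (Finset.ne_of_mem_erase hj)]

lemma F_col {W : Matrix n n ℂ} (hW : W * Wᴴ = 1) (Y : Matrix n n ℂ) (o j : n) :
    ∑ i, ‖Ff W Y o i j‖ ^ 2 = ∑ i ∈ univ.erase o, ‖(Y * W) i j‖ ^ 2 := by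
  unfold Ff
  rw [colN _ W hW]
  rw [← Finset.add_sum_erase univ _ (mem_univ o)]
  simp only [Matrix.of_apply, if_true, norm_zero]
  rw [zero_pow (by norm_num), zero_add]
  apply sum_congr rfl; intro j hj
  rw [if_neg (Finset.ne_of_mem_erase hj)]

noncomputable def e2 (W : Matrix n n ℂ) (Y : κ → Matrix n n ℂ) (o i j : n) : ℝ :=
  ∑ a, ‖Ee W (Y a) o i j‖ ^ 2
noncomputable def f2 (W : Matrix n n ℂ) (Y : κ → Matrix n n ℂ) (o i j : n) : ℝ :=
  ∑ a, ‖Ff W (Y a) o i j‖ ^ 2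

lemma e2_nonneg (W : Matrix n n ℂ) (Y : κ → Matrix n n ℂ) (o i j : n) : 0 ≤ e2 W Y o i j :=
  sum_nonneg fun _ _ => by positivity
lemma f2_nonneg (W : Matrix n n ℂ) (Y : κ → Matrix n n ℂ) (o i j : n) : 0 ≤ f2 W Y o i j :=
  sum_nonneg fun _ _ => by positivity

lemma e2_row {W : Matrix n n ℂ} (hW' : Wᴴ * W = 1) (Y : κ → Matrix n n ℂ) (o i : n) :
    ∑ j, e2 W Y o i j = ∑ j ∈ univ.erase o, pp W Y i j := by
  unfold e2 pp
  rw [sum_comm]
  simp_rw [E_row hW']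
  rw [sum_comm]

lemma f2_col {W : Matrix n n ℂ} (hW : W * Wᴴ = 1) (Y : κ → Matrix n n ℂ) (o j : n) :
    ∑ i, f2 W Y o i j = ∑ i ∈ univ.erase o, pp W Y i j := by
  unfold f2 pp
  rw [sum_comm]
  simp_rw [F_col hW]
  rw [sum_comm]

lemma cs2 (u v : κ → ℝ) (A B : ℝ) (hA : ∑ a, u a ^ 2 ≤ A) (hB : ∑ a, v a ^ 2 ≤ B) :
    ∑ a, u a * v a ≤ √A * √B := by
  refine (Real.sum_mul_le_sqrt_mul_sqrt univ u v).trans ?_
  exact mul_le_mul (Real.sqrt_le_sqrt hA) (Real.sqrt_le_sqrt hB) (Real.sqrt_nonneg _)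
    (Real.sqrt_nonneg _)

lemma pp_le {W : Matrix n n ℂ} (hW : W * Wᴴ = 1) {Y : κ → Matrix n n ℂ} (hY : SubON Y)
    (i j : n) : pp W Y i j ≤ 1 := by
  have h := hY.rot 1 W (by simp) hW
  have := bessel _ 1 zero_le_one h.orth h.norm i j
  simpa [pp] using this

lemma yy_le {Y : κ → Matrix n n ℂ} (hY : SubON Y) (i j : n) : yy Y i j ≤ 1 :=
  bessel _ 1 zero_le_one hY.orth hY.norm i j

lemma zz_le {W : Matrix n n ℂ} (hW : W * Wᴴ = 1) {Y : κ → Matrix n n ℂ} (hY : SubON Y)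
    (i j : n) : zz W Y i j ≤ 1 := by
  have h := hY.rot W W hW hW
  exact bessel _ 1 zero_le_one h.orth h.norm i j

lemma kk_le (W : Matrix n n ℂ) (Y : κ → Matrix n n ℂ) (i j : n) :
    -kk W Y i j ≤ ∑ a, ‖Y a i j‖ * ‖(Wᴴ * Y a * W) i j‖ := by
  unfold kk
  rw [← sum_neg_distrib]
  exact sum_le_sum fun a _ => pt3 _ _

lemma row_est {W : Matrix n n ℂ} (hW : W * Wᴴ = 1) {Y : κ → Matrix n n ℂ} (hY : SubON Y)
    (o j : n) : -kk W Y o j ≤ √(‖W o o‖ ^ 2) * √(pp W Y o j) + √(f2 W Y o o j) := by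
  refine (kk_le W Y o j).trans ?_
  have h1 : ∑ a, ‖Y a o j‖ * ‖(Wᴴ * Y a * W) o j‖
      ≤ ‖W o o‖ * ∑ a, ‖Y a o j‖ * ‖(Y a * W) o j‖ + ∑ a, ‖Y a o j‖ * ‖Ff W (Y a) o o j‖ := by
    rw [mul_sum, ← sum_add_distrib]
    apply sum_le_sum; intro a _
    have h2 : ‖(Wᴴ * Y a * W) o j‖ ≤ ‖W o o‖ * ‖(Y a * W) o j‖ + ‖Ff W (Y a) o o j‖ := by
      rw [A_eq W (Y a) o o j]
      refine (norm_add_le _ _).trans ?_
      rw [norm_mul, norm_star]
    have := mul_le_mul_of_nonneg_left h2 (norm_nonneg (Y a o j))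
    linarith
  have h3 := cs2 (fun a => ‖Y a o j‖) (fun a => ‖(Y a * W) o j‖) 1 (pp W Y o j)
    (yy_le hY o j) le_rfl
  have h4 := cs2 (fun a => ‖Y a o j‖) (fun a => ‖Ff W (Y a) o o j‖) 1 (f2 W Y o o j)
    (yy_le hY o j) le_rfl
  rw [Real.sqrt_one, one_mul] at h3 h4
  rw [Real.sqrt_sq (norm_nonneg _)]
  have h5 := mul_le_mul_of_nonneg_left h3 (norm_nonneg (W o o))
  linarith

lemma col_est {W : Matrix n n ℂ} (hW : W * Wᴴ = 1) {Y : κ → Matrix n n ℂ} (hY : SubON Y)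
    (o i : n) : -kk W Y i o ≤ √(‖W o o‖ ^ 2) * √(pp W Y i o) + √(e2 W Y o i o) := by
  refine (kk_le W Y i o).trans ?_
  have h1 : ∑ a, ‖Y a i o‖ * ‖(Wᴴ * Y a * W) i o‖
      ≤ ‖W o o‖ * ∑ a, ‖(Wᴴ * Y a * W) i o‖ * ‖(Y a * W) i o‖
        + ∑ a, ‖(Wᴴ * Y a * W) i o‖ * ‖Ee W (Y a) o i o‖ := by
    rw [mul_sum, ← sum_add_distrib]
    apply sum_le_sum; intro a _
    have h2 : ‖Y a i o‖ ≤ ‖W o o‖ * ‖(Y a * W) i o‖ + ‖Ee W (Y a) o i o‖ := by
      have e := Y_eq hW (Y a) o i o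
      calc ‖Y a i o‖ = ‖(Y a * W) i o * star (W o o) + Ee W (Y a) o i o‖ := by rw [← e]
        _ ≤ _ := norm_add_le _ _
        _ = _ := by rw [norm_mul, norm_star, mul_comm]
    have := mul_le_mul_of_nonneg_right h2 (norm_nonneg ((Wᴴ * Y a * W) i o))
    linarith
  have h3 := cs2 (fun a => ‖(Wᴴ * Y a * W) i o‖) (fun a => ‖(Y a * W) i o‖) 1 (pp W Y i o)
    (zz_le hW hY i o) le_rfl
  have h4 := cs2 (fun a => ‖(Wᴴ * Y a * W) i o‖) (fun a => ‖Ee W (Y a) o i o‖) 1 (e2 W Y o i o)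
    (zz_le hW hY i o) le_rfl
  rw [Real.sqrt_one, one_mul] at h3 h4
  rw [Real.sqrt_sq (norm_nonneg _)]
  have h5 := mul_le_mul_of_nonneg_left h3 (norm_nonneg (W o o))
  linarith

lemma tt_est {W : Matrix n n ℂ} (hW : W * Wᴴ = 1) {Y : κ → Matrix n n ℂ} (hY : SubON Y)
    (o l m : n) : -kk W Y l m ≤ ‖W m o‖ * ‖W o l‖ + ‖W m o‖ * √(f2 W Y o l m)
      + ‖W o l‖ * √(e2 W Y o l m) + (f2 W Y o l m + e2 W Y o l m) / 2 := by
  refine (kk_le W Y l m).trans ?_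
  have h1 : ∑ a, ‖Y a l m‖ * ‖(Wᴴ * Y a * W) l m‖
      ≤ ‖W m o‖ * ‖W o l‖ * ∑ a, ‖(Y a * W) l o‖ * ‖(Y a * W) o m‖
        + ‖W m o‖ * ∑ a, ‖(Y a * W) l o‖ * ‖Ff W (Y a) o l m‖
        + ‖W o l‖ * ∑ a, ‖(Y a * W) o m‖ * ‖Ee W (Y a) o l m‖
        + ∑ a, (‖Ff W (Y a) o l m‖ ^ 2 + ‖Ee W (Y a) o l m‖ ^ 2) / 2 := by
    rw [mul_sum, mul_sum, mul_sum, ← sum_add_distrib, ← sum_add_distrib, ← sum_add_distrib]
    apply sum_le_sum; intro a _
    have h2 : ‖(Wᴴ * Y a * W) l m‖ ≤ ‖W o l‖ * ‖(Y a * W) o m‖ + ‖Ff W (Y a) o l m‖ := by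
      rw [A_eq W (Y a) o l m]
      refine (norm_add_le _ _).trans ?_
      rw [norm_mul, norm_star]
    have h3 : ‖Y a l m‖ ≤ ‖W m o‖ * ‖(Y a * W) l o‖ + ‖Ee W (Y a) o l m‖ := by
      have e := Y_eq hW (Y a) o l m
      calc ‖Y a l m‖ = ‖(Y a * W) l o * star (W m o) + Ee W (Y a) o l m‖ := by rw [← e]
        _ ≤ _ := norm_add_le _ _
        _ = _ := by rw [norm_mul, norm_star, mul_comm]
    have h4 := mul_le_mul h3 h2 (norm_nonneg _) (by positivity)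
    have h5 := two_mul_le_add_sq (‖Ff W (Y a) o l m‖) (‖Ee W (Y a) o l m‖)
    refine h4.trans ?_
    nlinarith
  have c1 := cs2 (fun a => ‖(Y a * W) l o‖) (fun a => ‖(Y a * W) o m‖) 1 1
    (pp_le hW hY l o) (pp_le hW hY o m)
  have c2 := cs2 (fun a => ‖(Y a * W) l o‖) (fun a => ‖Ff W (Y a) o l m‖) 1 (f2 W Y o l m)
    (pp_le hW hY l o) le_rfl
  have c3 := cs2 (fun a => ‖(Y a * W) o m‖) (fun a => ‖Ee W (Y a) o l m‖) 1 (e2 W Y o l m)
    (pp_le hW hY o m) le_rfl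
  rw [Real.sqrt_one, one_mul] at c1 c2 c3
  have d1 := mul_le_mul_of_nonneg_left c1
    (mul_nonneg (norm_nonneg (W m o)) (norm_nonneg (W o l)))
  have d2 := mul_le_mul_of_nonneg_left c2 (norm_nonneg (W m o))
  have d3 := mul_le_mul_of_nonneg_left c3 (norm_nonneg (W o l))
  have d4 : ∑ a, (‖Ff W (Y a) o l m‖ ^ 2 + ‖Ee W (Y a) o l m‖ ^ 2) / 2
      = (f2 W Y o l m + e2 W Y o l m) / 2 := by
    unfold f2 e2
    rw [← sum_div, sum_add_distrib]
  rw [d4] at h1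
  linarith

lemma mk_data {W : Matrix n n ℂ} (hW : W * Wᴴ = 1) (hW' : Wᴴ * W = 1) {Y : κ → Matrix n n ℂ}
    (hY : SubON Y) (o : n) (s : n → ℝ) (hs : ∀ i, 0 ≤ s i) (hs1 : ∑ i, s i ^ 2 = 1) :
    Data o s (pp W Y) (yy Y) (zz W Y) (kk W Y) (∑ a, N2 (Y a)) := by
  have n0 : ∀ (f : κ → ℂ), 0 ≤ ∑ a, ‖f a‖ ^ 2 := fun f => sum_nonneg fun _ _ => by positivity
  refine ⟨hs, hs1, fun i j => n0 _, fun i j => pp_le hW hY i j, fun i j => n0 _,
    fun i j => yy_le hY i j, fun i j => n0 _, fun i j => zz_le hW hY i j, ?_, ?_, ?_,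
    koo hW' hY o, ?_⟩
  · unfold pp
    rw [swap3 (fun a i j => ‖(Y a * W) i j‖ ^ 2)]
    apply sum_congr rfl; intro a _
    have := N2_unitary 1 W (by simp) hW (Y a)
    rw [Matrix.conjTranspose_one, Matrix.one_mul] at this
    exact this
  · unfold yy
    rw [swap3 (fun a i j => ‖Y a i j‖ ^ 2)]
    rfl
  · unfold zz
    rw [swap3 (fun a i j => ‖(Wᴴ * Y a * W) i j‖ ^ 2)]
    apply sum_congr rfl; intro a _
    exact N2_unitary W W hW hW (Y a)
  · intro i j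
    unfold kk yy zz
    rw [mul_sum, ← sum_add_distrib]
    exact sum_le_sum fun a _ => pt2 _ _

lemma mk_dataB {W : Matrix n n ℂ} (hW : W * Wᴴ = 1) (hW' : Wᴴ * W = 1) {Y : κ → Matrix n n ℂ}
    (hY : SubON Y) (o : n) (s : n → ℝ) :
    DataB o s (pp W Y) (kk W Y) (‖W o o‖ ^ 2) (fun m => ‖W m o‖) (fun l => ‖W o l‖)
      (fun j => f2 W Y o o j) (fun i => e2 W Y o i o) (f2 W Y o) (e2 W Y o) := by
  have hcol := col_norm hW' o
  have hrow := row_norm hW o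
  rw [← Finset.add_sum_erase univ _ (mem_univ o)] at hcol hrow
  have hpp : ∀ i j, 0 ≤ pp W Y i j := fun i j => sum_nonneg fun _ _ => by positivity
  have hg1 : ‖W o o‖ ^ 2 ≤ 1 := by
    have : 0 ≤ ∑ i ∈ univ.erase o, ‖W i o‖ ^ 2 := sum_nonneg fun _ _ => by positivity
    linarith
  have hf : ∑ i, ∑ j ∈ univ.erase o, f2 W Y o i j
      = ∑ i ∈ univ.erase o, ∑ j ∈ univ.erase o, pp W Y i j := by
    rw [sum_comm]
    simp_rw [f2_col hW]
    rw [sum_comm]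
  have he : ∑ i ∈ univ.erase o, ∑ j, e2 W Y o i j
      = ∑ i ∈ univ.erase o, ∑ j ∈ univ.erase o, pp W Y i j := by
    simp_rw [e2_row hW']
  refine ⟨by positivity, hg1, hoo hW' hY o hg1, fun j => f2_nonneg _ _ _ _ _,
    fun j => e2_nonneg _ _ _ _ _, f2_nonneg _ _ _, e2_nonneg _ _ _, fun j => norm_nonneg _,
    fun j => norm_nonneg _, by linarith, by linarith, ?_, ?_, ?_, ?_,
    fun j _ => row_est hW hY o j, fun i _ => col_est hW hY o i,
    fun l _ m _ => tt_est hW hY o l m⟩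
  · rw [← hf]
    exact Finset.single_le_sum (f := fun i => ∑ j ∈ univ.erase o, f2 W Y o i j)
      (fun i _ => sum_nonneg fun j _ => f2_nonneg _ _ _ _ _) (mem_univ o)
  · rw [← he]
    apply sum_le_sum; intro i _
    exact Finset.single_le_sum (f := fun j => e2 W Y o i j)
      (fun j _ => e2_nonneg _ _ _ _ _) (mem_univ o)
  · rw [← hf]
    exact Finset.sum_le_sum_of_subset_of_nonneg (Finset.erase_subset _ _)
      (fun i _ _ => sum_nonneg fun j _ => f2_nonneg _ _ _ _ _)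
  · rw [← he]
    apply sum_le_sum; intro i _
    exact Finset.sum_le_sum_of_subset_of_nonneg (Finset.erase_subset _ _)
      (fun j _ _ => e2_nonneg _ _ _ _ _)

/-- the commutator norm in coordinates -/
lemma comm_eq {W : Matrix n n ℂ} (hW : W * Wᴴ = 1) (hW' : Wᴴ * W = 1) (Y : κ → Matrix n n ℂ)
    (s : n → ℝ) :
    ∑ a, N2 (W * diagonal (fun i => (s i : ℂ)) * Y a - Y a * (W * diagonal (fun i => (s i : ℂ))))
      = FF s (pp W Y) (kk W Y) := by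
  set S : Matrix n n ℂ := diagonal (fun i => (s i : ℂ)) with hS
  have h1 : ∀ a, N2 (W * S * Y a - Y a * (W * S))
      = ∑ i, ∑ j, (s i ^ 2 * ‖Y a i j‖ ^ 2 + s j ^ 2 * ‖(Wᴴ * Y a * W) i j‖ ^ 2
        - 2 * (s i * s j) * (Y a i j * star ((Wᴴ * Y a * W) i j)).re) := by
    intro a
    have e : Wᴴ * (W * S * Y a - Y a * (W * S)) * 1 = S * Y a - (Wᴴ * Y a * W) * S := by
      rw [Matrix.mul_one, Matrix.mul_sub]
      congr 1
      · calc Wᴴ * (W * S * Y a) = (Wᴴ * W) * S * Y a := by simp only [Matrix.mul_assoc]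
          _ = _ := by rw [hW', Matrix.one_mul]
      · simp only [Matrix.mul_assoc]
    rw [← N2_unitary W 1 hW (by simp) (W * S * Y a - Y a * (W * S)), e]
    unfold N2
    apply sum_congr rfl; intro i _
    apply sum_congr rfl; intro j _
    rw [Matrix.sub_apply, hS, Matrix.diagonal_mul, Matrix.mul_diagonal]
    set x := Y a i j
    set y := (Wᴴ * Y a * W) i j
    rw [← Complex.normSq_eq_norm_sq, ← Complex.normSq_eq_norm_sq, ← Complex.normSq_eq_norm_sq,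
      Complex.normSq_apply, Complex.normSq_apply, Complex.normSq_apply]
    simp only [Complex.star_def, Complex.mul_re, Complex.conj_re, Complex.conj_im, Complex.sub_re,
      Complex.sub_im, Complex.mul_im, Complex.ofReal_re, Complex.ofReal_im]
    ring
  simp_rw [h1]
  rw [← swap3]
  have hy : ∑ i, ∑ j, s i ^ 2 * yy Y i j = ∑ i, ∑ j, s i ^ 2 * pp W Y i j := by
    apply sum_congr rfl; intro i _
    rw [← mul_sum, ← mul_sum]
    congr 1
    unfold yy pp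
    rw [sum_comm, sum_comm (f := fun j a => ‖(Y a * W) i j‖ ^ 2)]
    apply sum_congr rfl; intro a _
    exact (rowN (Y a) W hW i).symm
  have hz : ∑ i, ∑ j, s j ^ 2 * zz W Y i j = ∑ i, ∑ j, s j ^ 2 * pp W Y i j := by
    rw [sum_comm, sum_comm (f := fun i j => s j ^ 2 * pp W Y i j)]
    apply sum_congr rfl; intro j _
    rw [← mul_sum, ← mul_sum]
    congr 1
    unfold zz pp
    rw [sum_comm, sum_comm (f := fun i a => ‖(Y a * W) i j‖ ^ 2)]
    apply sum_congr rfl; intro a _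
    rw [← colN (Y a * W) W hW j]
    simp only [Matrix.mul_assoc]
  have h2 : ∑ i, ∑ j, ∑ a, (s i ^ 2 * ‖Y a i j‖ ^ 2 + s j ^ 2 * ‖(Wᴴ * Y a * W) i j‖ ^ 2
        - 2 * (s i * s j) * (Y a i j * star ((Wᴴ * Y a * W) i j)).re)
      = ∑ i, ∑ j, (s i ^ 2 * yy Y i j + s j ^ 2 * zz W Y i j - 2 * (s i * s j) * kk W Y i j) := by
    apply sum_congr rfl; intro i _
    apply sum_congr rfl; intro j _
    unfold yy zz kk
    rw [mul_sum, mul_sum, mul_sum, ← sum_add_distrib, ← sum_sub_distrib]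
  rw [h2]
  unfold FF
  simp_rw [sum_sub_distrib, sum_add_distrib, add_mul, sum_add_distrib]
  rw [hy, hz]

end Pool.Agent.H709W
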