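import Mathlib
import Pool.Agent.H709W.Cross

set_option autoImplicit false

/-!
# The two bounds for all matrices
-/

open Finset Matrix Pool.H629LW

namespace Pool.Agent.H709W

/-- common reduction -/
lemma polar {n : ℕ} (X : Matrix (Fin (n + 1)) (Fin (n + 1)) ℂ) (hX : N2 X = 1)
    {κ : Type*} [Fintype κ] (Y : κ → Matrix (Fin (n + 1)) (Fin (n + 1)) ℂ) (hY : SubON Y) :
    ∃ (W V : Matrix (Fin (n + 1)) (Fin (n + 1)) ℂ) (s : Fin (n + 1) → ℝ)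
      (Y' : κ → Matrix (Fin (n + 1)) (Fin (n + 1)) ℂ),
      W * Wᴴ = 1 ∧ Wᴴ * W = 1 ∧ V * Vᴴ = 1 ∧ (∀ i, 0 ≤ s i) ∧ (∀ i, s i ≤ s 0) ∧
      ∑ i, s i ^ 2 = 1 ∧ SubON Y' ∧ ∑ a, N2 (Y' a) = ∑ a, N2 (Y a) ∧
      ∑ a, N2 (X * Y a - Y a * X) = FF s (pp W Y') (kk W Y') ∧
      V * (Xᴴ * X) * Vᴴ = diagonal (fun i => ((s i ^ 2 : ℝ) : ℂ)) := by
  obtain ⟨U, hU, V, hV, s, hanti, hs0, hXe⟩ := svd X
  have hU1 : U * Uᴴ = 1 := Matrix.mem_unitaryGroup_iff.1 hU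
  have hU2 : Uᴴ * U = 1 := Matrix.mem_unitaryGroup_iff'.1 hU
  have hV1 : V * Vᴴ = 1 := Matrix.mem_unitaryGroup_iff.1 hV
  have hV2 : Vᴴ * V = 1 := Matrix.mem_unitaryGroup_iff'.1 hV
  set S : Matrix (Fin (n + 1)) (Fin (n + 1)) ℂ := diagonal (fun i => (s i : ℂ)) with hS
  have hVc : Vᴴ * (Vᴴ)ᴴ = 1 := by rw [Matrix.conjTranspose_conjTranspose]; exact hV2
  have hY'1 : SubON (fun a => V * Y a * Vᴴ) := by
    have := hY.rot Vᴴ Vᴴ hVc hVc
    simpa using this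
  have hW1 : (V * U) * (V * U)ᴴ = 1 := by
    rw [Matrix.conjTranspose_mul]
    calc V * U * (Uᴴ * Vᴴ) = V * (U * Uᴴ) * Vᴴ := by simp only [Matrix.mul_assoc]
      _ = 1 := by rw [hU1, Matrix.mul_one, hV1]
  have hW2 : (V * U)ᴴ * (V * U) = 1 := by
    rw [Matrix.conjTranspose_mul]
    calc Uᴴ * Vᴴ * (V * U) = Uᴴ * (Vᴴ * V) * U := by simp only [Matrix.mul_assoc]
      _ = 1 := by rw [hV2, Matrix.mul_one, hU2]
  have hVX : V * X * Vᴴ = (V * U) * S := by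
    rw [hXe]
    calc V * (U * S * V) * Vᴴ = V * U * S * (V * Vᴴ) := by simp only [Matrix.mul_assoc]
      _ = _ := by rw [hV1, Matrix.mul_one]
  have hSS : Sᴴ * S = diagonal (fun i => ((s i ^ 2 : ℝ) : ℂ)) := by
    rw [hS, Matrix.diagonal_conjTranspose, Matrix.diagonal_mul_diagonal]
    congr 1
    funext i
    simp [sq]
  refine ⟨V * U, V, s, fun a => V * Y a * Vᴴ, hW1, hW2, hV1, hs0, fun i => hanti (Fin.zero_le i),
    ?_, hY'1, ?_, ?_, ?_⟩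
  · have h1 : N2 (Uᴴ * X * Vᴴ) = N2 X := N2_unitary U Vᴴ hU1 hVc X
    have h2 : Uᴴ * X * Vᴴ = S := by
      rw [hXe]
      calc Uᴴ * (U * S * V) * Vᴴ = (Uᴴ * U) * S * (V * Vᴴ) := by simp only [Matrix.mul_assoc]
        _ = _ := by rw [hV1, hU2, Matrix.mul_one, Matrix.one_mul]
    rw [h2, hX] at h1
    rw [← h1]
    unfold N2
    apply sum_congr rfl; intro i _
    rw [Finset.sum_eq_single i]
    · rw [hS, Matrix.diagonal_apply_eq, Complex.norm_real, Real.norm_eq_abs, sq_abs]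
    · intro j _ hj
      rw [hS, Matrix.diagonal_apply_ne _ (Ne.symm hj)]; simp
    · intro h; exact absurd (Finset.mem_univ i) h
  · apply sum_congr rfl; intro a _
    have := N2_unitary Vᴴ Vᴴ hVc hVc (Y a)
    rw [Matrix.conjTranspose_conjTranspose] at this
    exact this
  · rw [← comm_eq hW1 hW2]
    apply sum_congr rfl; intro a _
    rw [← hVX]
    have := N2_unitary Vᴴ Vᴴ hVc hVc (X * Y a - Y a * X)
    rw [Matrix.conjTranspose_conjTranspose] at this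
    rw [← this]
    congr 1
    rw [Matrix.mul_sub, Matrix.sub_mul]
    congr 1
    · calc V * (X * Y a) * Vᴴ = V * X * 1 * Y a * Vᴴ := by
            simp only [Matrix.mul_assoc, Matrix.mul_one]
        _ = _ := by rw [← hV2]; simp only [Matrix.mul_assoc]
    · calc V * (Y a * X) * Vᴴ = V * Y a * 1 * X * Vᴴ := by
            simp only [Matrix.mul_assoc, Matrix.mul_one]
        _ = _ := by rw [← hV2]; simp only [Matrix.mul_assoc]
  · rw [← hSS]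
    have e : Xᴴ * X = Vᴴ * (Sᴴ * S) * V := by
      rw [hXe, Matrix.conjTranspose_mul, Matrix.conjTranspose_mul]
      calc Vᴴ * (Sᴴ * Uᴴ) * (U * S * V) = Vᴴ * (Sᴴ * (Uᴴ * U) * S) * V := by
            simp only [Matrix.mul_assoc]
        _ = _ := by rw [hU2, Matrix.mul_one]
    rw [e]
    calc V * (Vᴴ * (Sᴴ * S) * V) * Vᴴ = (V * Vᴴ) * (Sᴴ * S) * (V * Vᴴ) := by
          simp only [Matrix.mul_assoc]
      _ = _ := by rw [hV1, Matrix.one_mul, Matrix.mul_one]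

/-- Both bounds, normalised, over `ℂ`. -/
theorem main_C {n : ℕ} (X : Matrix (Fin n) (Fin n) ℂ) (hX : N2 X = 1)
    {κ : Type*} [Fintype κ] (Y : κ → Matrix (Fin n) (Fin n) ℂ) (hY : SubON Y) (r : ℝ)
    (hr : r = ∑ a, N2 (Y a)) :
    (160 ≤ r → ∑ a, N2 (X * Y a - Y a * X) ≤ r + 2 + 24 / r) ∧
    (∀ R : ℝ, r ≤ R → 16 ≤ R → (∃ B : Matrix (Fin n) (Fin n) ℂ,
        ((1 - 8 / R : ℝ) : ℂ) • (1 : Matrix (Fin n) (Fin n) ℂ) - Xᴴ * X = Bᴴ * B) →
      ∑ a, N2 (X * Y a - Y a * X) ≤ R + 2) := by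
  rcases n with _ | n
  · exfalso
    unfold N2 at hX
    simp at hX
  obtain ⟨W, V, s, Y', hW1, hW2, hV1, hs0, hmax, hs1, hY', hN, hF, hD⟩ := polar X hX Y hY
  have hdata := mk_data hW1 hW2 hY' 0 s hs0 hs1
  rw [hN, ← hr] at hdata
  refine ⟨fun h => ?_, fun R hrR h hB => ?_⟩
  · rw [hF]
    exact boundB hdata (mk_dataB hW1 hW2 hY' 0 s) hmax h
  · rw [hF]
    refine boundA' hdata hmax R hrR h ?_
    obtain ⟨B, hB⟩ := hB
    have h1 : V * (((1 - 8 / R : ℝ) : ℂ) • (1 : Matrix (Fin (n + 1)) (Fin (n + 1)) ℂ) - Xᴴ * X) * Vᴴ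
        = (B * Vᴴ)ᴴ * (B * Vᴴ) := by
      rw [hB, Matrix.conjTranspose_mul, Matrix.conjTranspose_conjTranspose]
      simp only [Matrix.mul_assoc]
    rw [Matrix.mul_sub, Matrix.sub_mul, hD, Matrix.mul_smul, Matrix.mul_one, Matrix.smul_mul,
      hV1] at h1
    have h2 := congrFun (congrFun h1 0) 0
    rw [Matrix.sub_apply, Matrix.diagonal_apply_eq, Matrix.smul_apply, Matrix.one_apply_eq,
      smul_eq_mul, mul_one, ← Complex.ofReal_sub] at h2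
    have h3 : ((B * Vᴴ)ᴴ * (B * Vᴴ)) 0 0 = ((∑ i, ‖(B * Vᴴ) i 0‖ ^ 2 : ℝ) : ℂ) := by
      rw [Matrix.mul_apply, Complex.ofReal_sum]
      apply sum_congr rfl; intro i _
      rw [Matrix.conjTranspose_apply, Complex.star_def, mul_comm, Complex.mul_conj,
        Complex.normSq_eq_norm_sq]
    rw [h3] at h2
    have h4 : (1 - 8 / R : ℝ) - s 0 ^ 2 = ∑ i, ‖(B * Vᴴ) i 0‖ ^ 2 := by exact_mod_cast h2
    have h5 : 0 ≤ ∑ i, ‖(B * Vᴴ) i 0‖ ^ 2 := sum_nonneg fun _ _ => by positivity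
    linarith

end Pool.Agent.H709W
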