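import Mathlib
import Pool.Agent.H709W.Final

set_option autoImplicit false

/-!
# Versions over `ℝ` or `ℂ`
-/

open Finset Matrix Pool.H629LW
open scoped ComplexOrder MatrixOrder

namespace Pool.Agent.H709W

lemma dot_self {K : Type*} [RCLike K] {n : ℕ} (v : Fin n → K) :
    star v ⬝ᵥ v = ((∑ i, ‖v i‖ ^ 2 : ℝ) : K) := by
  simp only [dotProduct, Pi.star_apply]
  push_cast
  apply Finset.sum_congr rfl; intro i _
  rw [← RCLike.conj_mul]
  rfl

lemma posform {K : Type*} [RCLike K] {n : ℕ} (X : Matrix (Fin n) (Fin n) K) (c : ℝ)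
    (h : ∀ x : Fin n → K, ∑ i, ‖(X *ᵥ x) i‖ ^ 2 ≤ c * ∑ i, ‖x i‖ ^ 2) :
    ∃ B : Matrix (Fin n) (Fin n) K, (c : K) • (1 : Matrix (Fin n) (Fin n) K) - Xᴴ * X = Bᴴ * B := by
  have hp : ((c : K) • (1 : Matrix (Fin n) (Fin n) K) - Xᴴ * X).PosSemidef := by
    refine Matrix.PosSemidef.of_dotProduct_mulVec_nonneg ?_ ?_
    · refine Matrix.IsHermitian.sub ?_ (Matrix.isHermitian_conjTranspose_mul_self X)
      show ((c : K) • (1 : Matrix (Fin n) (Fin n) K))ᴴ = _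
      rw [Matrix.conjTranspose_smul, Matrix.conjTranspose_one]
      congr 1
      simp
    · intro x
      rw [Matrix.sub_mulVec, Matrix.smul_mulVec, Matrix.one_mulVec, dotProduct_sub,
        dotProduct_smul, ← Matrix.mulVec_mulVec, Matrix.dotProduct_mulVec, ← Matrix.star_mulVec,
        dot_self, dot_self, smul_eq_mul, ← RCLike.ofReal_mul, ← RCLike.ofReal_sub]
      rw [RCLike.ofReal_nonneg]
      linarith [h x]
  have hnn := hp.nonneg
  refine ⟨CFC.sqrt ((c : K) • (1 : Matrix (Fin n) (Fin n) K) - Xᴴ * X), ?_⟩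
  have hh : (CFC.sqrt ((c : K) • (1 : Matrix (Fin n) (Fin n) K) - Xᴴ * X))ᴴ
      = CFC.sqrt ((c : K) • (1 : Matrix (Fin n) (Fin n) K) - Xᴴ * X) :=
    (CFC.sqrt_nonneg ((c : K) • (1 : Matrix (Fin n) (Fin n) K) - Xᴴ * X)).posSemidef.1
  rw [hh, CFC.sqrt_mul_sqrt_self _ hnn]

lemma map_conj {K : Type*} [RCLike K] {n : ℕ} (A : Matrix (Fin n) (Fin n) K) :
    (A.map (toC K))ᴴ = Aᴴ.map (toC K) := by
  ext i j
  simp only [Matrix.conjTranspose_apply, Matrix.map_apply]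
  rw [← toC_star]

lemma toC_ofReal {K : Type*} [RCLike K] (c : ℝ) : toC K (c : K) = (c : ℂ) := by
  apply Complex.ext <;> simp [toC]

/-- Both bounds, normalised, over an `RCLike` field. -/
theorem main_K {K : Type*} [RCLike K] {n : ℕ} (X : Matrix (Fin n) (Fin n) K)
    (hX : ∑ i, ∑ j, ‖X i j‖ ^ 2 = 1) {κ : Type*} [Fintype κ]
    (Y : κ → Matrix (Fin n) (Fin n) K)
    (horth : ∀ a b, a ≠ b → ((Y a)ᴴ * Y b).trace = 0)
    (hN : ∀ a, ∑ i, ∑ j, ‖Y a i j‖ ^ 2 ≤ 1) (r : ℝ)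
    (hr : r = ∑ a, ∑ i, ∑ j, ‖Y a i j‖ ^ 2) :
    (160 ≤ r → ∑ a, ∑ i, ∑ j, ‖(X * Y a - Y a * X) i j‖ ^ 2 ≤ r + 2 + 24 / r) ∧
    (∀ R : ℝ, r ≤ R → 16 ≤ R →
      (∀ x : Fin n → K, ∑ i, ‖(X *ᵥ x) i‖ ^ 2 ≤ (1 - 8 / R) * ∑ i, ‖x i‖ ^ 2) →
      ∑ a, ∑ i, ∑ j, ‖(X * Y a - Y a * X) i j‖ ^ 2 ≤ R + 2) := by
  have hS : SubON (fun a => (Y a).map (toC K)) := by
    refine ⟨?_, ?_⟩
    · intro a b hab
      show (((Y a).map (toC K))ᴴ * (Y b).map (toC K)).trace = 0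
      rw [map_conj, ← Matrix.map_mul]
      have : ((((Y a)ᴴ * Y b).map (toC K)).trace) = toC K (((Y a)ᴴ * Y b).trace) := by
        simp only [Matrix.trace, Matrix.diag, Matrix.map_apply, map_sum]
      rw [this, horth a b hab, map_zero]
    · intro a
      show N2 ((Y a).map (toC K)) ≤ 1
      rw [N2_map]
      exact hN a
  have hXC : N2 (X.map (toC K)) = 1 := by rw [N2_map]; exact hX
  have hrC : r = ∑ a, N2 ((Y a).map (toC K)) := by simp only [N2_map]; exact hr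
  have e : ∀ a, N2 (X.map (toC K) * (Y a).map (toC K) - (Y a).map (toC K) * X.map (toC K))
      = ∑ i, ∑ j, ‖(X * Y a - Y a * X) i j‖ ^ 2 := by
    intro a
    rw [← N2_map]
    congr 1
    ext i j
    simp only [Matrix.sub_apply, Matrix.map_apply, map_sub, Matrix.mul_apply, map_sum, map_mul]
  obtain ⟨m1, m2⟩ := main_C (X.map (toC K)) hXC _ hS r hrC
  simp only [e] at m1 m2
  refine ⟨m1, fun R hrR h hx => m2 R hrR h ?_⟩
  obtain ⟨B, hB⟩ := posform X (1 - 8 / R) hx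
  refine ⟨B.map (toC K), ?_⟩
  rw [map_conj, map_conj, ← Matrix.map_mul, ← Matrix.map_mul, ← hB]
  generalize (1 - 8 / R : ℝ) = c
  ext i j
  simp only [Matrix.sub_apply, Matrix.smul_apply, Matrix.map_apply, map_sub, smul_eq_mul, map_mul,
    toC_ofReal]
  congr 1
  rw [Matrix.one_apply, Matrix.one_apply]
  split_ifs <;> simp

end Pool.Agent.H709W
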