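import Mathlib
import Pool.Agent.H709W.Kver

set_option autoImplicit false

/-!
# Family form and eigenvalue form
-/

open Finset Matrix Pool.H629LW

namespace Pool.Agent.H709W

lemma smul_norm {K : Type*} [RCLike K] {n : ℕ} (c : ℝ) (A : Matrix (Fin n) (Fin n) K) :
    ∑ i, ∑ j, ‖((c : K) • A) i j‖ ^ 2 = c ^ 2 * ∑ i, ∑ j, ‖A i j‖ ^ 2 := by
  rw [mul_sum]
  apply sum_congr rfl; intro i _
  rw [mul_sum]
  apply sum_congr rfl; intro j _
  rw [Matrix.smul_apply, smul_eq_mul, norm_mul, mul_pow, RCLike.norm_ofReal, sq_abs]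

/-- scaled form of both bounds -/
theorem family (K : Type) [RCLike K] (n k : ℕ) (B : Matrix (Fin n) (Fin n) K)
    (C : Fin k → Matrix (Fin n) (Fin n) K)
    (horth : ∀ a b : Fin k, a ≠ b → Matrix.trace (C a * (C b)ᴴ) = 0)
    (M : ℝ) (hM0 : 0 ≤ M) (hM : ∀ a, ∑ i, ∑ j, ‖C a i j‖ ^ 2 ≤ M) (Q : ℝ)
    (hQ : Q = ∑ a, ∑ i, ∑ j, ‖C a i j‖ ^ 2) (b : ℝ) (hb : b = ∑ i, ∑ j, ‖B i j‖ ^ 2) :
    (160 * M ≤ Q → ∑ a, ∑ i, ∑ j, ‖(B * C a - C a * B) i j‖ ^ 2
      ≤ (2 * M + Q + 24 * M ^ 2 / Q) * b) ∧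
    (16 * M ≤ Q → (∀ x : Fin n → K, ∑ i, ‖(B *ᵥ x) i‖ ^ 2
        ≤ (1 - 8 * M / Q) * b * ∑ i, ‖x i‖ ^ 2) →
      ∑ a, ∑ i, ∑ j, ‖(B * C a - C a * B) i j‖ ^ 2 ≤ (2 * M + Q) * b) := by
  have hb0 : 0 ≤ b := by
    rw [hb]; exact sum_nonneg fun _ _ => sum_nonneg fun _ _ => by positivity
  have hQ0 : 0 ≤ Q := by
    rw [hQ]
    exact sum_nonneg fun _ _ => sum_nonneg fun _ _ => sum_nonneg fun _ _ => by positivity
  -- degenerate cases
  rcases eq_or_lt_of_le hM0 with hMz | hMpos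
  · have hC : ∀ a, C a = 0 := by
      intro a
      have h1 := hM a
      rw [← hMz] at h1
      have h2 : ∑ i, ∑ j, ‖C a i j‖ ^ 2 = 0 :=
        le_antisymm h1 (sum_nonneg fun _ _ => sum_nonneg fun _ _ => by positivity)
      ext i j
      rw [Finset.sum_eq_zero_iff_of_nonneg
        (fun _ _ => sum_nonneg fun _ _ => by positivity)] at h2
      have h3 := h2 i (mem_univ i)
      rw [Finset.sum_eq_zero_iff_of_nonneg (fun _ _ => by positivity)] at h3
      have h4 := h3 j (mem_univ j)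
      simpa using h4
    have hL : ∑ a, ∑ i, ∑ j, ‖(B * C a - C a * B) i j‖ ^ 2 = 0 := by
      simp [hC]
    rw [hL, ← hMz]
    refine ⟨fun _ => ?_, fun _ _ => ?_⟩
    · simp; positivity
    · simp; positivity
  rcases eq_or_lt_of_le hb0 with hbz | hbpos
  · have hB : B = 0 := by
      have h2 : ∑ i, ∑ j, ‖B i j‖ ^ 2 = 0 := by rw [← hb, ← hbz]
      ext i j
      rw [Finset.sum_eq_zero_iff_of_nonneg
        (fun _ _ => sum_nonneg fun _ _ => by positivity)] at h2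
      have h3 := h2 i (mem_univ i)
      rw [Finset.sum_eq_zero_iff_of_nonneg (fun _ _ => by positivity)] at h3
      have h4 := h3 j (mem_univ j)
      simpa using h4
    have hL : ∑ a, ∑ i, ∑ j, ‖(B * C a - C a * B) i j‖ ^ 2 = 0 := by
      simp [hB]
    rw [hL, ← hbz]
    simp
  -- scaling
  set u : ℝ := (√b)⁻¹ with hu
  set v : ℝ := (√M)⁻¹ with hv
  have hu2 : u ^ 2 = b⁻¹ := by rw [hu, inv_pow, Real.sq_sqrt hb0]
  have hv2 : v ^ 2 = M⁻¹ := by rw [hv, inv_pow, Real.sq_sqrt hM0]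
  have hX : ∑ i, ∑ j, ‖((u : K) • B) i j‖ ^ 2 = 1 := by
    rw [smul_norm, hu2, ← hb]; field_simp
  have hY1 : ∀ a, ∑ i, ∑ j, ‖((v : K) • C a) i j‖ ^ 2 ≤ 1 := by
    intro a
    rw [smul_norm, hv2]
    rw [inv_mul_le_iff₀ hMpos, mul_one]
    exact hM a
  have hYo : ∀ a c, a ≠ c → (((v : K) • C a)ᴴ * ((v : K) • C c)).trace = 0 := by
    intro a c hac
    rw [Matrix.conjTranspose_smul, Matrix.smul_mul, Matrix.mul_smul, Matrix.trace_smul,
      Matrix.trace_smul, Matrix.trace_mul_comm, horth c a (Ne.symm hac)]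
    simp
  set r : ℝ := Q / M with hr
  have hrY : r = ∑ a, ∑ i, ∑ j, ‖((v : K) • C a) i j‖ ^ 2 := by
    simp_rw [smul_norm, hv2]
    rw [← mul_sum, ← hQ, hr]; field_simp
  have hcomm : ∑ a, ∑ i, ∑ j, ‖(((u : K) • B) * ((v : K) • C a)
        - ((v : K) • C a) * ((u : K) • B)) i j‖ ^ 2
      = (b * M)⁻¹ * ∑ a, ∑ i, ∑ j, ‖(B * C a - C a * B) i j‖ ^ 2 := by
    rw [mul_sum]
    apply sum_congr rfl; intro a _
    have e : ((u : K) • B) * ((v : K) • C a) - ((v : K) • C a) * ((u : K) • B)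
        = ((u * v : ℝ) : K) • (B * C a - C a * B) := by
      rw [Matrix.smul_mul, Matrix.mul_smul, Matrix.smul_mul, Matrix.mul_smul, smul_smul, smul_smul,
        smul_sub, RCLike.ofReal_mul, mul_comm (v : K) (u : K)]
    rw [e, smul_norm, mul_pow, hu2, hv2, mul_inv]
  obtain ⟨m1, m2⟩ := main_K ((u : K) • B) hX (fun a => (v : K) • C a) hYo hY1 r hrY
  simp only [hcomm] at m1 m2
  have hbM : 0 < b * M := mul_pos hbpos hMpos
  refine ⟨fun h => ?_, fun h hx => ?_⟩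
  · have hQpos : 0 < Q := by linarith
    have hr160 : 160 ≤ r := by rw [hr, le_div_iff₀ hMpos]; exact h
    have h1 := m1 hr160
    rw [inv_mul_le_iff₀ hbM] at h1
    refine h1.trans (le_of_eq ?_)
    rw [hr]
    field_simp
    ring
  · have hQpos : 0 < Q := by linarith
    have hr16 : 16 ≤ r := by rw [hr, le_div_iff₀ hMpos]; exact h
    have h1 := m2 r le_rfl hr16 ?_
    · rw [inv_mul_le_iff₀ hbM] at h1
      refine h1.trans (le_of_eq ?_)
      rw [hr]
      field_simp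
      ring
    · intro x
      have e1 : ∑ i, ‖(((u : K) • B) *ᵥ x) i‖ ^ 2 = b⁻¹ * ∑ i, ‖(B *ᵥ x) i‖ ^ 2 := by
        rw [← hu2, mul_sum]
        apply sum_congr rfl; intro i _
        rw [Matrix.smul_mulVec, Pi.smul_apply, smul_eq_mul, norm_mul, mul_pow, RCLike.norm_ofReal,
          sq_abs]
      rw [e1, inv_mul_le_iff₀ hbpos]
      refine (hx x).trans (le_of_eq ?_)
      rw [hr]
      field_simp

/-- The eigenvalue form of both bounds. -/
theorem eigen (K : Type) [RCLike K] (n : ℕ) (X : Matrix (Fin n) (Fin n) K)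
    (hX : ∑ i, ∑ j, ‖X i j‖ ^ 2 = 1)
    (hM : (Matrix.of (fun p q : Fin n × Fin n =>
        (Xᴴ * (X * Matrix.single q.1 q.2 (1:K) - Matrix.single q.1 q.2 (1:K) * X)
          - (X * Matrix.single q.1 q.2 (1:K) - Matrix.single q.1 q.2 (1:K) * X) * Xᴴ)
            p.1 p.2)).IsHermitian) (S : Finset (Fin n × Fin n)) :
    (160 ≤ (S.card : ℝ) → ∑ p ∈ S, hM.eigenvalues p ≤ (S.card : ℝ) + 2 + 24 / (S.card : ℝ)) ∧
    (∀ R : ℝ, (S.card : ℝ) ≤ R → 16 ≤ R →
      (∀ x : Fin n → K, ∑ i, ‖(X *ᵥ x) i‖ ^ 2 ≤ (1 - 8 / R) * ∑ i, ‖x i‖ ^ 2) →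
      ∑ p ∈ S, hM.eigenvalues p ≤ R + 2) := by
  classical
  set T : Matrix (Fin n × Fin n) (Fin n × Fin n) K := Matrix.of (fun p q : Fin n × Fin n =>
        (Xᴴ * (X * Matrix.single q.1 q.2 (1:K) - Matrix.single q.1 q.2 (1:K) * X)
          - (X * Matrix.single q.1 q.2 (1:K) - Matrix.single q.1 q.2 (1:K) * X) * Xᴴ)
            p.1 p.2) with hT
  set Y : (Fin n × Fin n) → Matrix (Fin n) (Fin n) K :=
    fun p => Matrix.of (fun i j => hM.eigenvectorBasis p (i, j)) with hY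
  have hinner : ∀ p q, ((Y p)ᴴ * Y q).trace = if p = q then 1 else 0 := by
    intro p q
    have h1 := (orthonormal_iff_ite.1 hM.eigenvectorBasis.orthonormal) p q
    rw [← h1, PiLp.inner_apply, Fintype.sum_prod_type]
    simp only [Matrix.trace, Matrix.diag, Matrix.mul_apply, Matrix.conjTranspose_apply]
    rw [Finset.sum_comm]
    apply Finset.sum_congr rfl; intro i _
    apply Finset.sum_congr rfl; intro j _
    simp [hY, RCLike.inner_apply, mul_comm]
  have hnorm : ∀ p, ∑ i, ∑ j, ‖Y p i j‖ ^ 2 = 1 := by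
    intro p
    have h1 := trace_self (Y p)
    rw [hinner p p, if_pos rfl] at h1
    exact_mod_cast h1.symm
  have hact : ∀ (A : Matrix (Fin n) (Fin n) K) (p : Fin n × Fin n),
      ∑ q, T p q * A q.1 q.2 = (Xᴴ * (X * A - A * X) - (X * A - A * X) * Xᴴ) p.1 p.2 := by
    intro A p
    have hA : A = ∑ q : Fin n × Fin n, A q.1 q.2 • Matrix.single q.1 q.2 (1:K) := by
      conv_lhs => rw [Matrix.matrix_eq_sum_single A]
      rw [Fintype.sum_prod_type]
      simp [Matrix.smul_single]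
    conv_rhs => rw [hA]
    simp only [Matrix.mul_sum, Matrix.sum_mul, ← Finset.sum_sub_distrib, Matrix.mul_smul,
      Matrix.smul_mul, ← smul_sub]
    rw [Matrix.sum_apply]
    apply Finset.sum_congr rfl
    intro q _
    rw [Matrix.smul_apply, smul_eq_mul, mul_comm, hT, Matrix.of_apply]
  have heig : ∀ p, hM.eigenvalues p
      = ∑ i, ∑ j, ‖(X * Y p - Y p * X) i j‖ ^ 2 := by
    intro p
    have h1 := hM.mulVec_eigenvectorBasis p
    have h2 : ∀ q : Fin n × Fin n,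
        (Xᴴ * (X * Y p - Y p * X) - (X * Y p - Y p * X) * Xᴴ) q.1 q.2
          = (hM.eigenvalues p : K) * Y p q.1 q.2 := by
      intro q
      rw [← hact (Y p) q]
      have h3 := congrFun h1 q
      simp only [Matrix.mulVec, dotProduct, Pi.smul_apply] at h3
      rw [RCLike.real_smul_eq_coe_mul] at h3
      exact h3
    have h4 : ((Y p)ᴴ * (Xᴴ * (X * Y p - Y p * X) - (X * Y p - Y p * X) * Xᴴ)).trace
        = (hM.eigenvalues p : K) := by
      have e : (Xᴴ * (X * Y p - Y p * X) - (X * Y p - Y p * X) * Xᴴ)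
          = (hM.eigenvalues p : K) • Y p := by
        ext i j
        rw [Matrix.smul_apply, smul_eq_mul]
        exact h2 (i, j)
      rw [e, Matrix.mul_smul, Matrix.trace_smul, hinner p p, if_pos rfl, smul_eq_mul, mul_one]
    have h5 : ((Y p)ᴴ * (Xᴴ * (X * Y p - Y p * X) - (X * Y p - Y p * X) * Xᴴ)).trace
        = ((X * Y p - Y p * X)ᴴ * (X * Y p - Y p * X)).trace := by
      have e1 : (X * Y p - Y p * X)ᴴ = (Y p)ᴴ * Xᴴ - Xᴴ * (Y p)ᴴ := by
        rw [Matrix.conjTranspose_sub, Matrix.conjTranspose_mul, Matrix.conjTranspose_mul]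
      rw [e1]
      exact trace_id _ _ _
    rw [h5, trace_self] at h4
    exact_mod_cast h4.symm
  have e1 : ∑ p : S, ∑ i, ∑ j, ‖(X * Y p.1 - Y p.1 * X) i j‖ ^ 2 = ∑ p ∈ S, hM.eigenvalues p := by
    rw [← Finset.sum_coe_sort S]
    apply Finset.sum_congr rfl
    intro p _
    exact (heig p.1).symm
  have e2 : (S.card : ℝ) = ∑ p : S, ∑ i, ∑ j, ‖Y p.1 i j‖ ^ 2 := by
    simp [hnorm]
  have hfin := main_K X hX (fun p : S => Y p.1) ?_ ?_ (S.card : ℝ) e2
  · rw [e1] at hfin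
    exact hfin
  · intro a b hab
    rw [hinner, if_neg]
    intro h
    exact hab (Subtype.ext h)
  · intro a
    exact (hnorm a.1).le

end Pool.Agent.H709W
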