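import Mathlib
import Pool.Agent.H709W.Fam
import Pool.Agent.H629LW.QuadK

set_option autoImplicit false

/-!
# Ky Fan form of the exact bound
-/

open Finset Matrix Pool.H629LW

namespace Pool.Agent.H709W

theorem kyfan (K : Type) [RCLike K] (n : ℕ) (X : Matrix (Fin n) (Fin n) K)
    (hX : ∑ i, ∑ j, ‖X i j‖ ^ 2 = 1) (k m : ℕ) (hk : 8 ≤ k) (hm : m ≤ 2 * k)
    (hop : ∀ x : Fin n → K, ∑ i, ‖(X *ᵥ x) i‖ ^ 2 ≤ (1 - 4 / (k : ℝ)) * ∑ i, ‖x i‖ ^ 2)
    (Y : Fin m → Matrix (Fin n) (Fin n) K)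
    (hY : ∀ a b : Fin m, ∑ i, ∑ j, star (Y a i j) * Y b i j = if a = b then (1 : K) else 0) :
    ∑ a, ∑ i, ∑ j, ‖(X * Y a - Y a * X) i j‖ ^ 2
        ≤ (if k < n then (2 * (k : ℝ) + 2) else 2 * (n : ℝ)) := by
  have htrK : ∀ a b, ((Y a)ᴴ * Y b).trace = if a = b then 1 else 0 := by
    intro a b
    rw [← hY a b]
    simp only [Matrix.trace, Matrix.diag, Matrix.mul_apply, Matrix.conjTranspose_apply]
    rw [Finset.sum_comm]
  have hNK : ∀ a, ∑ i, ∑ j, ‖Y a i j‖ ^ 2 = 1 := by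
    intro a
    have h1 := trace_self (Y a)
    rw [htrK a a, if_pos rfl] at h1
    exact_mod_cast h1.symm
  split_ifs with hkn
  · have hm' : (m : ℝ) ≤ 2 * (k : ℝ) := by exact_mod_cast hm
    have hk' : (8 : ℝ) ≤ (k : ℝ) := by exact_mod_cast hk
    have hr : (m : ℝ) = ∑ a, ∑ i, ∑ j, ‖Y a i j‖ ^ 2 := by simp [hNK]
    refine (main_K X hX Y (fun a b hab => by rw [htrK, if_neg hab]) (fun a => (hNK a).le)
      (m : ℝ) hr).2 (2 * (k : ℝ)) hm' (by linarith) ?_
    intro x
    have e : 8 / (2 * (k : ℝ)) = 4 / (k : ℝ) := by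
      rw [div_eq_div_iff (by positivity) (by positivity)]; ring
    rw [e]
    exact hop x
  · set X' : Matrix (Fin n) (Fin n) ℂ := X.map (toC K) with hX'
    set Y' : Fin m → Matrix (Fin n) (Fin n) ℂ := fun a => (Y a).map (toC K) with hY'
    have hNX : N2 X' = 1 := by rw [hX', N2_map, hX]
    have htr : ∀ a b, ((Y' a)ᴴ * Y' b).trace = if a = b then 1 else 0 := by
      intro a b
      rw [trace_conjTranspose_mul]
      have e : ∑ i, ∑ j, star (Y' a i j) * Y' b i j
          = toC K (∑ i, ∑ j, star (Y a i j) * Y b i j) := by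
        rw [map_sum]
        apply Finset.sum_congr rfl; intro i _
        rw [map_sum]
        apply Finset.sum_congr rfl; intro j _
        rw [map_mul, toC_star]
        rfl
      rw [e, hY a b]
      split_ifs <;> simp
    have horth : ∀ a b, a ≠ b → ((Y' a)ᴴ * Y' b).trace = 0 := by
      intro a b hab
      rw [htr a b, if_neg hab]
    have hN : ∀ a, N2 (Y' a) = 1 := by
      intro a
      rw [N2_eq, htr a a, if_pos rfl, Complex.one_re]
    have hcomm : ∀ a, N2 (X' * Y' a - Y' a * X') = ∑ i, ∑ j, ‖(X * Y a - Y a * X) i j‖ ^ 2 := by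
      intro a
      rw [← N2_map]
      congr 1
      ext i j
      simp only [hX', hY', Matrix.sub_apply, Matrix.map_apply, map_sub, Matrix.mul_apply, map_sum,
        map_mul]
    have h2 := trace_bound X' Y' horth (fun a => (hN a).le)
    simp only [hcomm, hNX, Fintype.card_fin, mul_one] at h2
    exact h2

end Pool.Agent.H709W
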