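import Mathlib
import Pool.Agent.H709W.Mat

set_option autoImplicit false

/-!
# Families with `tr (C_a [B, C_b]) = 0`: pairing with `[B, C_a]*`
-/

open Finset Matrix Pool.H629LW

namespace Pool.Agent.H709W

variable {n : Type*} [Fintype n] [DecidableEq n]

lemma N2_nonneg' (A : Matrix n n ℂ) : 0 ≤ N2 A := N2_nonneg A

/-- single functional Cauchy–Schwarz -/
lemma cs_tr (Z y : Matrix n n ℂ) (hy : N2 y ≤ 1) : ‖(Zᴴ * y).trace‖ ^ 2 ≤ N2 Z := by
  have h : SubON (fun _ : Unit => y) := ⟨fun a b hab => absurd (Subsingleton.elim a b) hab,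
    fun _ => hy⟩
  simpa using bessel_gen h Z

/-- orthonormal families -/
theorem pair_on {α : Type*} [Fintype α] [DecidableEq α] (B : Matrix n n ℂ)
    (c : α → Matrix n n ℂ)
    (hc : ∀ a b, ((c a)ᴴ * c b).trace = if a = b then 1 else 0)
    (h2 : ∀ a b, (c a * (B * c b - c b * B)).trace = 0) :
    ∑ a, N2 (B * c a - c a * B) ≤ ((Fintype.card α : ℝ) + 2) * N2 B := by
  classical
  set β := N2 B with hβ
  have hβ0 : 0 ≤ β := N2_nonneg B
  set D : α → Matrix n n ℂ := fun a => B * c a - c a * B with hD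
  set H : Matrix α α ℂ := Matrix.of fun a b => ((D a)ᴴ * D b).trace with hHdef
  have hH : H.IsHermitian := by
    ext a b
    rw [Matrix.conjTranspose_apply, hHdef, Matrix.of_apply, Matrix.of_apply,
      ← Matrix.trace_conjTranspose, Matrix.conjTranspose_mul, Matrix.conjTranspose_conjTranspose]
  set U : Matrix α α ℂ := (hH.eigenvectorUnitary : Matrix α α ℂ) with hU
  have hUU : Uᴴ * U = 1 := by
    have := Unitary.coe_star_mul_self hH.eigenvectorUnitary
    exact this
  set lam : α → ℝ := hH.eigenvalues with hlam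
  have hdiag : Uᴴ * H * U = diagonal (fun i => (lam i : ℂ)) := by
    have := hH.conjStarAlgAut_star_eigenvectorUnitary
    rw [Unitary.conjStarAlgAut_star_apply] at this
    exact this
  set y : α → Matrix n n ℂ := fun i => ∑ a, U a i • c a with hy
  set E : α → Matrix n n ℂ := fun i => ∑ a, U a i • D a with hE
  have hEy : ∀ i, B * y i - y i * B = E i := by
    intro i
    simp only [hy, hE, hD, Matrix.mul_sum, Matrix.sum_mul, Matrix.mul_smul, Matrix.smul_mul,
      ← Finset.sum_sub_distrib, ← smul_sub]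
  have hyy : ∀ i j, ((y i)ᴴ * y j).trace = if i = j then 1 else 0 := by
    intro i j
    have e : ((y i)ᴴ * y j).trace = (Uᴴ * U) i j := by
      simp only [hy, Matrix.conjTranspose_sum, Matrix.sum_mul, Matrix.mul_sum, Matrix.trace_sum,
        Matrix.conjTranspose_smul, Matrix.smul_mul, Matrix.mul_smul, Matrix.trace_smul, hc,
        smul_eq_mul, Matrix.mul_apply, Matrix.conjTranspose_apply]
      simp
      apply Finset.sum_congr rfl; intro a _; ring
    rw [e, hUU, Matrix.one_apply]
  have hEE : ∀ i j, ((E i)ᴴ * E j).trace = if i = j then (lam i : ℂ) else 0 := by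
    intro i j
    have e : ((E i)ᴴ * E j).trace = (Uᴴ * H * U) i j := by
      simp only [hE, Matrix.conjTranspose_sum, Matrix.sum_mul, Matrix.mul_sum, Matrix.trace_sum,
        Matrix.conjTranspose_smul, Matrix.smul_mul, Matrix.mul_smul, Matrix.trace_smul,
        smul_eq_mul, Matrix.mul_apply, Matrix.conjTranspose_apply, hHdef, Matrix.of_apply]
      simp only [Finset.sum_mul]
      apply Finset.sum_congr rfl; intro a _
      rw [Finset.mul_sum]
      apply Finset.sum_congr rfl; intro b _; ring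
    rw [e, hdiag, Matrix.diagonal_apply]
  have hyE : ∀ i j, (y i * E j).trace = 0 := by
    intro i j
    simp only [hy, hE, Matrix.sum_mul, Matrix.mul_sum, Matrix.trace_sum,
      Matrix.smul_mul, Matrix.mul_smul, Matrix.trace_smul]
    apply Finset.sum_eq_zero; intro a _
    have h0 : ∀ x, (c x * D a).trace = 0 := fun x => h2 x a
    simp [h0]
  have hNE : ∀ i, N2 (E i) = lam i := by
    intro i
    rw [N2_eq, hEE i i, if_pos rfl, Complex.ofReal_re]
  -- the good indices
  set S : Finset α := univ.filter (fun i => β < lam i) with hS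
  have hSpos : ∀ i : S, 0 < lam i := fun i =>
    lt_of_le_of_lt hβ0 (Finset.mem_filter.1 i.2).2
  set z : α → Matrix n n ℂ := fun i => (((√(lam i))⁻¹ : ℝ) : ℂ) • (E i)ᴴ with hz
  set F : S ⊕ S → Matrix n n ℂ := Sum.elim (fun i => y i) (fun i => z i) with hF
  have hzz : ∀ i j : S, ((z i)ᴴ * z j).trace = if i = j then 1 else 0 := by
    intro i j
    have e : ((z i)ᴴ * z j).trace
        = (((√(lam i))⁻¹ * (√(lam j))⁻¹ : ℝ) : ℂ) * ((E j)ᴴ * E i).trace := by
      rw [hz, Matrix.conjTranspose_smul, Matrix.smul_mul, Matrix.mul_smul, Matrix.trace_smul,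
        Matrix.trace_smul, Matrix.conjTranspose_conjTranspose, Matrix.trace_mul_comm (E i),
        Complex.star_def, Complex.conj_ofReal, smul_eq_mul, smul_eq_mul, Complex.ofReal_mul]
      ring
    rw [e, hEE]
    by_cases hij : i = j
    · subst hij
      rw [if_pos rfl, if_pos rfl, ← Complex.ofReal_mul]
      have h5 := hSpos i
      have h6 : √(lam i) ^ 2 = lam i := Real.sq_sqrt h5.le
      have h7 : (√(lam i))⁻¹ * (√(lam i))⁻¹ * lam i = 1 := by
        have h8 : √(lam i) ≠ 0 := by positivity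
        field_simp
        linarith
      rw [h7, Complex.ofReal_one]
    · have hji : ¬ (j : α) = (i : α) := fun h => hij (Subtype.ext h.symm)
      rw [if_neg hji, if_neg hij, mul_zero]
  have hyz : ∀ i j, ((y i)ᴴ * z j).trace = 0 := by
    intro i j
    have : (y i)ᴴ * (E j)ᴴ = (E j * y i)ᴴ := by rw [Matrix.conjTranspose_mul]
    rw [hz, Matrix.mul_smul, Matrix.trace_smul, this, Matrix.trace_conjTranspose,
      Matrix.trace_mul_comm, hyE]
    simp
  have hzy : ∀ i j, ((z i)ᴴ * y j).trace = 0 := by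
    intro i j
    have : (z i)ᴴ * y j = ((y j)ᴴ * z i)ᴴ := by
      rw [Matrix.conjTranspose_mul, Matrix.conjTranspose_conjTranspose]
    rw [this, Matrix.trace_conjTranspose, hyz]
    simp
  have hNy : ∀ i, N2 (y i) = 1 := by
    intro i; rw [N2_eq, hyy i i, if_pos rfl, Complex.one_re]
  have hNz : ∀ i : S, N2 (z i) = 1 := by
    intro i; rw [N2_eq, hzz i i, if_pos rfl, Complex.one_re]
  have horth : ∀ a b : S ⊕ S, a ≠ b → ((F a)ᴴ * F b).trace = 0 := by
    rintro (i | i) (j | j) hij
    · show ((y i)ᴴ * y j).trace = 0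
      rw [hyy, if_neg (fun h => hij (by rw [Subtype.ext h]))]
    · exact hyz i j
    · exact hzy i j
    · show ((z i)ᴴ * z j).trace = 0
      rw [hzz, if_neg (fun h => hij (by rw [h]))]
  have hN : ∀ a, N2 (F a) = 1 := by
    rintro (i | i)
    · exact hNy i
    · exact hNz i
  have hmain := main_bound B F 1 zero_le_one horth (fun a => (hN a).le)
  rw [Fintype.sum_sum_type] at hmain
  have hl1 : ∀ i : S, N2 (B * F (Sum.inl i) - F (Sum.inl i) * B) = lam i := by
    intro i
    show N2 (B * y i - y i * B) = lam i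
    rw [hEy, hNE]
  have hl2 : ∀ i : S, lam i ≤ N2 (B * F (Sum.inr i) - F (Sum.inr i) * B) := by
    intro i
    show lam i ≤ N2 (B * z i - z i * B)
    have hp := hSpos i
    have e1 : B * z i - z i * B = (((√(lam i))⁻¹ : ℝ) : ℂ) • (B * (E i)ᴴ - (E i)ᴴ * B) := by
      simp only [hz, Matrix.mul_smul, Matrix.smul_mul, smul_sub]
    rw [e1, N2_smul]
    have e2 : ‖(((√(lam i))⁻¹ : ℝ) : ℂ)‖ ^ 2 = (lam i)⁻¹ := by
      rw [Complex.norm_real, Real.norm_eq_abs, sq_abs, inv_pow, Real.sq_sqrt hp.le]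
    rw [e2]
    set P := B * (E i)ᴴ - (E i)ᴴ * B with hP
    have h6 : ‖(P * y i).trace‖ ^ 2 ≤ N2 P := by
      have := cs_tr Pᴴ (y i) (hNy i).le
      rw [Matrix.conjTranspose_conjTranspose, N2_conjTranspose] at this
      exact this
    have h7 : (P * y i).trace = -(lam i : ℂ) := by
      have e3 : ((E i)ᴴ * (B * y i - y i * B)).trace = (lam i : ℂ) := by
        rw [hEy, hEE i i, if_pos rfl]
      rw [← e3, hP, trace_id, ← Matrix.trace_neg, ← Matrix.neg_mul, neg_sub]
    rw [h7, norm_neg, Complex.norm_real, Real.norm_eq_abs, sq_abs] at h6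
    rw [le_inv_mul_iff₀ hp]
    nlinarith
  have hsumS : ∑ i : S, (lam i - β) ≤ 2 * β := by
    have e1 : ∑ a, N2 (F a) = 2 * (S.card : ℝ) := by
      simp only [hN, Finset.sum_const, Finset.card_univ, Fintype.card_sum, Fintype.card_coe,
        nsmul_eq_mul, mul_one]
      push_cast; ring
    rw [e1] at hmain
    have h8 : ∑ i : S, lam i ≤ ∑ i : S, N2 (B * F (Sum.inr i) - F (Sum.inr i) * B) :=
      Finset.sum_le_sum fun i _ => hl2 i
    have h9 : ∑ i : S, N2 (B * F (Sum.inl i) - F (Sum.inl i) * B) = ∑ i : S, lam i :=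
      Finset.sum_congr rfl fun i _ => hl1 i
    rw [h9] at hmain
    have h10 : ∑ i : S, (lam i - β) = ∑ i : S, lam i - (S.card : ℝ) * β := by
      rw [Finset.sum_sub_distrib]
      simp
    rw [h10]
    linarith
  have htr : ∑ a, N2 (D a) = ∑ i, lam i := by
    have h11 := hH.trace_eq_sum_eigenvalues
    have h12 : H.trace = ((∑ a, N2 (D a) : ℝ) : ℂ) := by
      rw [Matrix.trace, Complex.ofReal_sum]
      apply Finset.sum_congr rfl; intro a _
      rw [Matrix.diag_apply, hHdef, Matrix.of_apply]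
      apply Complex.ext
      · rw [← N2_eq, Complex.ofReal_re]
      · rw [Complex.ofReal_im]
        have h13 : star (((D a)ᴴ * D a).trace) = ((D a)ᴴ * D a).trace := by
          rw [← Matrix.trace_conjTranspose, Matrix.conjTranspose_mul,
            Matrix.conjTranspose_conjTranspose]
        exact Complex.conj_eq_iff_im.1 h13
    rw [h12] at h11
    have h14 : ((∑ a, N2 (D a) : ℝ) : ℂ) = ((∑ i, lam i : ℝ) : ℂ) := by
      rw [h11, Complex.ofReal_sum]; rfl
    exact_mod_cast h14
  rw [htr]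
  have h15 : ∑ i, (lam i - β) ≤ ∑ i : S, (lam i - β) := by
    rw [Finset.sum_coe_sort S (fun i => lam i - β), hS, Finset.sum_filter]
    apply Finset.sum_le_sum; intro i _
    split_ifs with h
    · exact le_rfl
    · linarith
  have h16 : ∑ i, (lam i - β) = ∑ i, lam i - (Fintype.card α : ℝ) * β := by
    rw [Finset.sum_sub_distrib]; simp
  rw [h16] at h15
  linarith


/-- the weighted form over `ℂ` -/
theorem pair_fam {κ : Type*} [Fintype κ] [DecidableEq κ] (B : Matrix n n ℂ)
    (C : κ → Matrix n n ℂ) (M : ℝ) (hM0 : 0 ≤ M)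
    (horth : ∀ a b, a ≠ b → ((C a)ᴴ * C b).trace = 0)
    (h2 : ∀ a b, (C a * (B * C b - C b * B)).trace = 0) (hM : ∀ a, N2 (C a) ≤ M) :
    ∑ a, N2 (B * C a - C a * B) ≤ (2 * M + ∑ a, N2 (C a)) * N2 B := by
  classical
  set β := N2 B with hβ
  have hβ0 : 0 ≤ β := N2_nonneg B
  set A : Finset κ := univ.filter (fun a => N2 (C a) * β < N2 (B * C a - C a * B)) with hA
  have hwpos : ∀ a : A, 0 < N2 (C a) := by
    intro a
    have h1 := (Finset.mem_filter.1 a.2).2
    rcases (N2_nonneg (C a)).eq_or_lt with h0 | h0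
    · exfalso
      have hC : C a = 0 := eq_zero_of_N2 _ (by rw [← h0])
      rw [hC] at h1
      simp [N2] at h1
    · exact h0
  set c : A → Matrix n n ℂ := fun a => (((√(N2 (C a)))⁻¹ : ℝ) : ℂ) • C a with hc
  have hc1 : ∀ a b : A, ((c a)ᴴ * c b).trace = if a = b then 1 else 0 := by
    intro a b
    have e : ((c a)ᴴ * c b).trace
        = (((√(N2 (C a)))⁻¹ * (√(N2 (C b)))⁻¹ : ℝ) : ℂ) * ((C a)ᴴ * C b).trace := by
      rw [hc, Matrix.conjTranspose_smul, Matrix.smul_mul, Matrix.mul_smul, Matrix.trace_smul,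
        Matrix.trace_smul, Complex.star_def, Complex.conj_ofReal, smul_eq_mul, smul_eq_mul,
        Complex.ofReal_mul]
      ring
    rw [e]
    by_cases hab : a = b
    · subst hab
      rw [if_pos rfl]
      have h5 := hwpos a
      have h6 : ((C a)ᴴ * C a).trace = ((N2 (C a) : ℝ) : ℂ) := by
        apply Complex.ext
        · rw [← N2_eq, Complex.ofReal_re]
        · rw [Complex.ofReal_im]
          have h13 : star (((C a)ᴴ * C a).trace) = ((C a)ᴴ * C a).trace := by
            rw [← Matrix.trace_conjTranspose, Matrix.conjTranspose_mul,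
              Matrix.conjTranspose_conjTranspose]
          exact Complex.conj_eq_iff_im.1 h13
      rw [h6, ← Complex.ofReal_mul]
      have h7 : √(N2 (C a)) ^ 2 = N2 (C a) := Real.sq_sqrt h5.le
      have h8 : (√(N2 (C a)))⁻¹ * (√(N2 (C a)))⁻¹ * N2 (C a) = 1 := by
        have h9 : √(N2 (C a)) ≠ 0 := by positivity
        field_simp
        linarith
      rw [h8, Complex.ofReal_one]
    · have hab' : (a : κ) ≠ (b : κ) := fun h => hab (Subtype.ext h)
      rw [if_neg hab, horth _ _ hab', mul_zero]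
  have hcc : ∀ a : A, B * c a - c a * B
      = (((√(N2 (C a)))⁻¹ : ℝ) : ℂ) • (B * C a - C a * B) := by
    intro a
    simp only [hc, Matrix.mul_smul, Matrix.smul_mul, smul_sub]
  have hc2 : ∀ a b : A, (c a * (B * c b - c b * B)).trace = 0 := by
    intro a b
    rw [hcc, hc, Matrix.smul_mul, Matrix.mul_smul, Matrix.trace_smul, Matrix.trace_smul, h2]
    simp
  have hmain := pair_on B c hc1 hc2
  have hN : ∀ a : A, N2 (B * c a - c a * B) = (N2 (C a))⁻¹ * N2 (B * C a - C a * B) := by
    intro a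
    rw [hcc, N2_smul, Complex.norm_real, Real.norm_eq_abs, sq_abs, inv_pow,
      Real.sq_sqrt (hwpos a).le]
  simp only [hN, Fintype.card_coe] at hmain
  have h3 : ∑ a : A, ((N2 (C a))⁻¹ * N2 (B * C a - C a * B) - β) ≤ 2 * β := by
    rw [Finset.sum_sub_distrib]
    simp only [Finset.sum_const, Finset.card_univ, Fintype.card_coe, nsmul_eq_mul]
    linarith
  have h4 : ∑ a : A, (N2 (B * C a - C a * B) - N2 (C a) * β)
      ≤ M * ∑ a : A, ((N2 (C a))⁻¹ * N2 (B * C a - C a * B) - β) := by
    rw [Finset.mul_sum]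
    apply Finset.sum_le_sum; intro a _
    have hp := hwpos a
    have h5 : N2 (C a) * β < N2 (B * C a - C a * B) := (Finset.mem_filter.1 a.2).2
    have h6 : 0 ≤ (N2 (C a))⁻¹ * N2 (B * C a - C a * B) - β := by
      have : β ≤ (N2 (C a))⁻¹ * N2 (B * C a - C a * B) := by
        rw [le_inv_mul_iff₀ hp]; exact h5.le
      linarith
    have h7 : N2 (B * C a - C a * B) - N2 (C a) * β
        = N2 (C a) * ((N2 (C a))⁻¹ * N2 (B * C a - C a * B) - β) := by
      field_simp
    rw [h7]
    exact mul_le_mul_of_nonneg_right (hM a) h6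
  have h5 : ∑ a, (N2 (B * C a - C a * B) - N2 (C a) * β)
      ≤ ∑ a : A, (N2 (B * C a - C a * B) - N2 (C a) * β) := by
    rw [Finset.sum_coe_sort A (fun a => N2 (B * C a - C a * B) - N2 (C a) * β), hA,
      Finset.sum_filter]
    apply Finset.sum_le_sum; intro i _
    split_ifs with h
    · exact le_rfl
    · linarith
  have h6 : ∑ a, (N2 (B * C a - C a * B) - N2 (C a) * β)
      = ∑ a, N2 (B * C a - C a * B) - (∑ a, N2 (C a)) * β := by
    rw [Finset.sum_sub_distrib, Finset.sum_mul]
  have h7 := mul_le_mul_of_nonneg_left h3 hM0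
  rw [h6] at h5
  linarith

/-- the form over `ℝ` or `ℂ` -/
theorem pair_K (K : Type) [RCLike K] (n k : ℕ) (B : Matrix (Fin n) (Fin n) K)
    (C : Fin k → Matrix (Fin n) (Fin n) K)
    (horth : ∀ a b : Fin k, a ≠ b → Matrix.trace (C a * (C b)ᴴ) = 0)
    (h2 : ∀ a b : Fin k, Matrix.trace (C a * (B * C b - C b * B)) = 0)
    (M : ℝ) (hM0 : 0 ≤ M) (hM : ∀ a, ∑ i, ∑ j, ‖C a i j‖ ^ 2 ≤ M) :
    ∑ a, ∑ i, ∑ j, ‖(B * C a - C a * B) i j‖ ^ 2
      ≤ (2 * M + ∑ a, ∑ i, ∑ j, ‖C a i j‖ ^ 2) * ∑ i, ∑ j, ‖B i j‖ ^ 2 := by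
  have hconj : ∀ A : Matrix (Fin n) (Fin n) K, (A.map (toC K))ᴴ = Aᴴ.map (toC K) := by
    intro A
    ext i j
    simp only [Matrix.conjTranspose_apply, Matrix.map_apply]
    rw [← toC_star]
  have htr : ∀ A : Matrix (Fin n) (Fin n) K, (A.map (toC K)).trace = toC K A.trace := by
    intro A
    simp only [Matrix.trace, Matrix.diag, Matrix.map_apply, map_sum]
  have hcm : ∀ a, B.map (toC K) * (C a).map (toC K) - (C a).map (toC K) * B.map (toC K)
      = (B * C a - C a * B).map (toC K) := by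
    intro a
    ext i j
    simp only [Matrix.sub_apply, Matrix.map_apply, map_sub, Matrix.mul_apply, map_sum, map_mul]
  have h := pair_fam (B.map (toC K)) (fun a => (C a).map (toC K)) M hM0 ?_ ?_ ?_
  · simp only [hcm, N2_map] at h
    exact h
  · intro a b hab
    show (((C a).map (toC K))ᴴ * (C b).map (toC K)).trace = 0
    rw [hconj, ← Matrix.map_mul, htr, Matrix.trace_mul_comm, horth b a (Ne.symm hab), map_zero]
  · intro a b
    show ((C a).map (toC K) * (B.map (toC K) * (C b).map (toC K)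
      - (C b).map (toC K) * B.map (toC K))).trace = 0
    rw [hcm, ← Matrix.map_mul, htr, h2, map_zero]
  · intro a
    show N2 ((C a).map (toC K)) ≤ M
    rw [N2_map]
    exact hM a

end Pool.Agent.H709W
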